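import Mathlib

/-! Pairs of involutions: contraction lemma. -/

namespace Pool.Agent.Lib.MP_88ff4d_co

open Finset

variable {α : Type*} [DecidableEq α]

/-- `R` is a fixed-point-free involution of `S` -/
def Inv (S : Finset α) (R : α → α) : Prop := ∀ x ∈ S, R x ∈ S ∧ R x ≠ x ∧ R (R x) = x

/-- `A` is closed under `P` -/
def Cl (A : Finset α) (P : α → α) : Prop := ∀ x ∈ A, P x ∈ A

/-- the two involutions form a single cycle on `S` -/
def Conn (S : Finset α) (P R : α → α) : Prop :=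
  ∀ A ⊆ S, A.Nonempty → Cl A P → Cl A R → A = S

omit [DecidableEq α] in
theorem Inv.inj {S : Finset α} {R : α → α} (h : Inv S R) {x y : α} (hx : x ∈ S) (hy : y ∈ S)
    (e : R x = R y) : x = y := by
  rw [← (h x hx).2.2, e, (h y hy).2.2]

omit [DecidableEq α] in
theorem Inv.mono {S T : Finset α} {R : α → α} (h : Inv S R) (hT : T ⊆ S) (hc : Cl T R) :
    Inv T R := fun x hx => ⟨hc x hx, (h x (hT hx)).2⟩

omit [DecidableEq α] in
theorem Inv.congr {S : Finset α} {R R' : α → α} (h : Inv S R) (e : ∀ x ∈ S, R' x = R x) :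
    Inv S R' := by
  intro x hx
  obtain ⟨h1, h2, h3⟩ := h x hx
  rw [e x hx, e _ h1]
  exact ⟨h1, h2, h3⟩

theorem Inv.sdiff {S T : Finset α} {R : α → α} (h : Inv S R) (_hT : T ⊆ S) (hc : Cl T R) :
    Cl (S \ T) R := by
  intro x hx
  rw [mem_sdiff] at hx ⊢
  refine ⟨(h x hx.1).1, fun hh => hx.2 ?_⟩
  have := hc _ hh
  rwa [(h x hx.1).2.2] at this

theorem Inv.piece {S T : Finset α} {R R' : α → α} (h : Inv S R) (h' : Inv T R')
    (hd : Disjoint S T) : Inv (S ∪ T) (fun x => if x ∈ S then R x else R' x) := by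
  intro x hx
  by_cases hs : x ∈ S
  · obtain ⟨h1, h2, h3⟩ := h x hs
    simp only [if_pos hs, if_pos h1]
    exact ⟨mem_union_left _ h1, h2, h3⟩
  · have ht : x ∈ T := (mem_union.mp hx).resolve_left hs
    obtain ⟨h1, h2, h3⟩ := h' x ht
    have h4 : R' x ∉ S := fun hh => disjoint_left.mp hd hh h1
    simp only [if_neg hs, if_neg h4]
    exact ⟨mem_union_right _ h1, h2, h3⟩

omit [DecidableEq α] in
theorem Inv.sum_eq_zero {S : Finset α} {R : α → α} (h : Inv S R) (f : α → ℤ)
    (hf : ∀ x ∈ S, f (R x) = - f x) : ∑ x ∈ S, f x = 0 := by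
  have h1 : ∑ x ∈ S, f x = ∑ x ∈ S, f (R x) :=
    sum_nbij' R R (fun x hx => (h x hx).1) (fun x hx => (h x hx).1) (fun x hx => (h x hx).2.2)
      (fun x hx => (h x hx).2.2) (fun x hx => by rw [(h x hx).2.2])
  rw [sum_congr rfl hf, sum_neg_distrib] at h1
  omega

theorem Inv.even {S : Finset α} {R : α → α} (h : Inv S R) : Even S.card := by
  induction S using Finset.strongInduction with
  | H S ih =>
    rcases S.eq_empty_or_nonempty with rfl | ⟨x, hx⟩
    · simp
    obtain ⟨h1, h2, h3⟩ := h x hx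
    have hT : ({x, R x} : Finset α) ⊆ S := by
      intro y hy
      rcases mem_insert.mp hy with rfl | hy
      · exact hx
      · rw [mem_singleton.mp hy]; exact h1
    have hc : Cl {x, R x} R := by
      intro y hy
      rcases mem_insert.mp hy with rfl | hy
      · simp
      · rw [mem_singleton.mp hy, h3]; simp
    have h4 := ih (S \ {x, R x}) (sdiff_ssubset hT ⟨x, by simp⟩) (h.mono sdiff_subset (h.sdiff hT hc))
    rw [← card_sdiff_add_card_eq_card hT, card_pair h2.symm]
    exact h4.add even_two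

theorem exists_inv_of_even (S : Finset α) (h : Even S.card) : ∃ R, Inv S R := by
  induction S using Finset.strongInduction with
  | H S ih =>
    rcases S.eq_empty_or_nonempty with rfl | hne
    · exact ⟨id, fun x hx => by simp at hx⟩
    have h1 : 1 < S.card := by
      have := card_pos.mpr hne
      obtain ⟨k, hk⟩ := h
      omega
    obtain ⟨x, hx, y, hy, hxy⟩ := one_lt_card.mp h1
    have hT : ({x, y} : Finset α) ⊆ S := by
      intro z hz
      rcases mem_insert.mp hz with rfl | hz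
      · exact hx
      · rw [mem_singleton.mp hz]; exact hy
    have h2 : Even (S \ {x, y}).card := by
      have := card_sdiff_add_card_eq_card hT
      rw [card_pair hxy] at this
      obtain ⟨k, hk⟩ := h
      exact ⟨k - 1, by omega⟩
    obtain ⟨R, hR⟩ := ih _ (sdiff_ssubset hT ⟨x, by simp⟩) h2
    have h3 : Inv {x, y} (fun z => if z = x then y else x) := by
      intro z hz
      rcases mem_insert.mp hz with rfl | hz
      · simp [hxy.symm]
      · rw [mem_singleton.mp hz]
        simp [hxy, hxy.symm]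
    have h4 := h3.piece hR disjoint_sdiff
    rw [union_sdiff_of_subset hT] at h4
    exact ⟨_, h4⟩

/-- an injective map into a disjoint set gives an involution -/
theorem exists_inv_of_injOn (A : Finset α) (f : α → α) (hf : Set.InjOn f A)
    (hd : ∀ x ∈ A, f x ∉ A) :
    ∃ R, Inv (A ∪ A.image f) R ∧ (∀ x ∈ A, R x = f x) ∧ (∀ x ∈ A, R (f x) = x) := by
  classical
  let g : α → α := fun y => if h : ∃ x ∈ A, f x = y then h.choose else y
  have hg : ∀ x ∈ A, g (f x) = x := by
    intro x hx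
    have h : ∃ z ∈ A, f z = f x := ⟨x, hx, rfl⟩
    simp only [g, dif_pos h]
    exact hf h.choose_spec.1 hx h.choose_spec.2
  have e1 : ∀ x ∈ A, (if x ∈ A then f x else g x) = f x := fun x hx => if_pos hx
  have e2 : ∀ x ∈ A, (if f x ∈ A then f (f x) else g (f x)) = x := fun x hx => by
    rw [if_neg (hd x hx), hg x hx]
  refine ⟨fun x => if x ∈ A then f x else g x, ?_, e1, e2⟩
  intro x hx
  rcases mem_union.mp hx with h1 | h1
  · simp only [e1 x h1, e2 x h1]
    refine ⟨mem_union_right _ (mem_image_of_mem f h1), fun hh => hd x h1 ?_, trivial⟩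
    rw [hh]; exact h1
  · obtain ⟨y, hy, rfl⟩ := mem_image.mp h1
    simp only [e2 y hy, e1 y hy]
    refine ⟨mem_union_left _ hy, fun hh => hd y hy ?_, trivial⟩
    rw [← hh]; exact hy

theorem contract_aux (S1 : Finset α) (R1 : α → α) : ∀ (S : Finset α) (P : α → α), Inv S P →
    S1 ⊆ S → Inv S1 R1 → (∀ A ⊆ S1, Cl A P → Cl A R1 → A = ∅) →
    ∃ P', Inv (S \ S1) P' ∧ ∀ A ⊆ S, Cl A P → (∀ x ∈ A, x ∈ S1 → R1 x ∈ A) →
      ∀ x ∈ A, x ∉ S1 → P' x ∈ A := by
  induction S1 using Finset.strongInduction with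
  | H S1 ih =>
    intro S P hP hS hR hac
    rcases S1.eq_empty_or_nonempty with rfl | ⟨x0, hx0⟩
    · exact ⟨P, by simpa using hP, fun A _ hA _ x hx _ => hA x hx⟩
    obtain ⟨hy0, hyx, hRy⟩ := hR x0 hx0
    set y0 := R1 x0 with hy0def
    obtain ⟨ha, hax, hPa⟩ := hP x0 (hS hx0)
    obtain ⟨hb, hby, hPb⟩ := hP y0 (hS hy0)
    set a := P x0 with hadef
    set b := P y0 with hbdef
    have hT : ({x0, y0} : Finset α) ⊆ S1 := by
      intro z hz
      rcases mem_insert.mp hz with rfl | hz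
      · exact hx0
      · rw [mem_singleton.mp hz]; exact hy0
    have hcR : Cl {x0, y0} R1 := by
      intro z hz
      rcases mem_insert.mp hz with rfl | hz
      · simp [hy0def]
      · rw [mem_singleton.mp hz, hRy]; simp
    have hay : a ≠ y0 := by
      intro hh
      have : Cl {x0, y0} P := by
        intro z hz
        rcases mem_insert.mp hz with rfl | hz
        · rw [← hadef, hh]; simp
        · rw [mem_singleton.mp hz, ← hh, hPa]; simp
      have := hac _ hT this hcR
      simp at this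
    have hbx : b ≠ x0 := by
      intro hh
      apply hay
      rw [hadef, ← hh, hPb]
    have hab : a ≠ b := fun hh => hyx (hP.inj (hS hx0) (hS hy0) hh).symm
    let P1 : α → α := fun z => if z = a then b else if z = b then a else P z
    have P1a : P1 a = b := by simp [P1]
    have P1b : P1 b = a := by simp [P1, hab.symm]
    have P1o : ∀ z, z ≠ a → z ≠ b → P1 z = P z := fun z h1 h2 => by simp [P1, h1, h2]
    have mem2 : ∀ z, z ∈ ({x0, y0} : Finset α) ↔ z = x0 ∨ z = y0 := fun z => by simp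
    have Po : ∀ z ∈ S, z ≠ a → z ≠ b → P z ∉ ({x0, y0} : Finset α) := by
      intro z hz h1 h2 h3
      rcases (mem2 _).mp h3 with h4 | h4
      · exact h1 (by rw [hadef, ← h4, (hP z hz).2.2])
      · exact h2 (by rw [hbdef, ← h4, (hP z hz).2.2])
    have ha' : a ∉ ({x0, y0} : Finset α) := by rw [mem2]; tauto
    have hb' : b ∉ ({x0, y0} : Finset α) := by rw [mem2]; tauto
    have hP1 : Inv (S \ {x0, y0}) P1 := by
      intro z hz
      by_cases h1 : z = a
      · rw [h1, P1a, P1b]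
        exact ⟨mem_sdiff.mpr ⟨hb, hb'⟩, hab.symm, rfl⟩
      by_cases h2 : z = b
      · rw [h2, P1b, P1a]
        exact ⟨mem_sdiff.mpr ⟨ha, ha'⟩, hab, rfl⟩
      obtain ⟨hzS, hz2⟩ := mem_sdiff.mp hz
      rw [mem2, not_or] at hz2
      obtain ⟨k1, k2, k3⟩ := hP z hzS
      have h3 : P z ≠ a := fun hh => hz2.1 (hP.inj hzS (hS hx0) hh)
      have h4 : P z ≠ b := fun hh => hz2.2 (hP.inj hzS (hS hy0) hh)
      rw [P1o z h1 h2, P1o _ h3 h4]
      exact ⟨mem_sdiff.mpr ⟨k1, Po z hzS h1 h2⟩, k2, k3⟩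
    obtain ⟨P', hP', hcl⟩ := ih (S1 \ {x0, y0}) (sdiff_ssubset hT ⟨x0, by simp⟩)
      (S \ {x0, y0}) P1 hP1 (sdiff_subset_sdiff hS le_rfl)
      (hR.mono sdiff_subset (hR.sdiff hT hcR)) (by
        intro A hA c1 c2
        have hA1 : A ⊆ S1 := hA.trans sdiff_subset
        by_cases h1 : a ∈ A
        · have h2 : b ∈ A := P1a ▸ c1 a h1
          have := hac (A ∪ {x0, y0}) (union_subset hA1 hT) (by
            intro z hz
            rcases mem_union.mp hz with h3 | h3
            · by_cases h4 : z = a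
              · rw [h4, hPa]; simp
              by_cases h5 : z = b
              · rw [h5, hPb]; simp
              rw [← P1o z h4 h5]
              exact mem_union_left _ (c1 z h3)
            · rcases (mem2 _).mp h3 with h4 | h4
              · rw [h4]; exact mem_union_left _ h1
              · rw [h4]; exact mem_union_left _ h2) (by
            intro z hz
            rcases mem_union.mp hz with h3 | h3
            · exact mem_union_left _ (c2 z h3)
            · exact mem_union_right _ (hcR z h3))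
          simp at this
        · have h2 : b ∉ A := fun hh => h1 (P1b ▸ c1 b hh)
          refine hac A hA1 (fun z hz => ?_) c2
          rw [← P1o z (fun hh => h1 (hh ▸ hz)) (fun hh => h2 (hh ▸ hz))]
          exact c1 z hz)
    have e : (S \ {x0, y0}) \ (S1 \ {x0, y0}) = S \ S1 := by
      ext z
      simp only [mem_sdiff]
      constructor
      · rintro ⟨⟨h1, h2⟩, h3⟩
        exact ⟨h1, fun hh => h3 ⟨hh, h2⟩⟩
      · rintro ⟨h1, h2⟩
        exact ⟨⟨h1, fun hh => h2 (hT hh)⟩, fun hh => h2 hh.1⟩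
    rw [e] at hP'
    refine ⟨P', hP', fun A hA c1 c2 x hx hx1 => ?_⟩
    have := hcl (A \ {x0, y0}) (sdiff_subset_sdiff hA le_rfl) (by
      intro z hz
      obtain ⟨h1, h2⟩ := mem_sdiff.mp hz
      by_cases h4 : z = a
      · rw [h4, P1a]
        refine mem_sdiff.mpr ⟨c1 _ (c2 x0 ?_ hx0), hb'⟩
        rw [← hPa, ← h4]
        exact c1 z h1
      by_cases h5 : z = b
      · rw [h5, P1b]
        refine mem_sdiff.mpr ⟨c1 _ ?_, ha'⟩
        rw [← hRy]
        refine c2 y0 ?_ hy0
        rw [← hPb, ← h5]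
        exact c1 z h1
      rw [P1o z h4 h5]
      exact mem_sdiff.mpr ⟨c1 z h1, Po z (hA h1) h4 h5⟩) (by
      intro z hz hz1
      exact mem_sdiff.mpr ⟨c2 z (mem_sdiff.mp hz).1 (mem_sdiff.mp hz1).1,
        (mem_sdiff.mp (hR.sdiff hT hcR z hz1)).2⟩)
      x (mem_sdiff.mpr ⟨hx, fun hh => hx1 (hT hh)⟩) (fun hh => hx1 (mem_sdiff.mp hh).1)
    exact (mem_sdiff.mp this).1

theorem contract {S S1 : Finset α} {P R1 : α → α} (hP : Inv S P) (hS : S1 ⊆ S) (hR : Inv S1 R1)
    (hac : ∀ A ⊆ S1, Cl A P → Cl A R1 → A = ∅) :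
    ∃ P', Inv (S \ S1) P' ∧ (∀ A ⊆ S, Cl A P → (∀ x ∈ A, x ∈ S1 → R1 x ∈ A) →
      ∀ x ∈ A, x ∉ S1 → P' x ∈ A) ∧
      ∀ R', Inv (S \ S1) R' → Conn (S \ S1) P' R' →
        Inv S (fun x => if x ∈ S1 then R1 x else R' x) ∧
        Conn S P (fun x => if x ∈ S1 then R1 x else R' x) := by
  obtain ⟨P', h1, h2⟩ := contract_aux S1 R1 S P hP hS hR hac
  refine ⟨P', h1, h2, fun R' hR' hC => ?_⟩
  have hI : Inv S (fun x => if x ∈ S1 then R1 x else R' x) := by
    have := hR.piece hR' disjoint_sdiff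
    rwa [union_sdiff_of_subset hS] at this
  refine ⟨hI, fun A hA hne c1 c2 => ?_⟩
  have c3 : ∀ x ∈ A, x ∈ S1 → R1 x ∈ A := fun x hx hx1 => by
    have := c2 x hx
    simpa only [if_pos hx1] using this
  have h3 : (A \ S1).Nonempty := by
    rw [nonempty_iff_ne_empty]
    intro hh
    have h4 : A ⊆ S1 := sdiff_eq_empty_iff_subset.mp hh
    exact hne.ne_empty (hac A h4 c1 fun x hx => c3 x hx (h4 hx))
  have h4 := hC (A \ S1) (sdiff_subset_sdiff hA le_rfl) h3 (by
    intro x hx
    obtain ⟨k1, k2⟩ := mem_sdiff.mp hx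
    exact mem_sdiff.mpr ⟨h2 A hA c1 c3 x k1 k2,
      (mem_sdiff.mp (h1 x (mem_sdiff.mpr ⟨hA k1, k2⟩)).1).2⟩) (by
    intro x hx
    obtain ⟨k1, k2⟩ := mem_sdiff.mp hx
    have := c2 x k1
    simp only [if_neg k2] at this
    exact mem_sdiff.mpr ⟨this, (mem_sdiff.mp (hR' x (mem_sdiff.mpr ⟨hA k1, k2⟩)).1).2⟩)
  have h5 : S \ A ⊆ S1 := by
    intro x hx
    obtain ⟨k1, k2⟩ := mem_sdiff.mp hx
    by_contra k3
    have : x ∈ A \ S1 := h4 ▸ mem_sdiff.mpr ⟨k1, k3⟩
    exact k2 (mem_sdiff.mp this).1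
  have h6 := hac (S \ A) h5 (hP.sdiff hA c1) (by
    intro x hx
    have := hI.sdiff hA c2 x hx
    simpa only [if_pos (h5 hx)] using this)
  exact subset_antisymm hA (sdiff_eq_empty_iff_subset.mp h6)

/-- a single alternating cycle whose second involution follows `adj` -/
def Good (adj : α → α → Prop) (S : Finset α) (P : α → α) : Prop :=
  ∃ R, Inv S R ∧ (∀ x ∈ S, adj x (R x)) ∧ Conn S P R

/-- every pairing extends -/
def Fk (adj : α → α → Prop) (S : Finset α) : Prop := Even S.card ∧ ∀ P, Inv S P → Good adj S P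

theorem step {adj : α → α → Prop} {S S0 : Finset α} {P : α → α} (hP : Inv S P) (hS : S0 ⊆ S)
    (hF : Fk adj S0) (hx : ∃ x ∈ S0, P x ∉ S0) :
    ∃ P', Inv (S \ S0) P' ∧ (∀ x ∈ S \ S0, P x ∉ S0 → P' x = P x) ∧
      (Good adj (S \ S0) P' → Good adj S P) := by
  set N := S0.filter fun x => P x ∈ S0 with hN
  have hNS : N ⊆ S0 := filter_subset _ _
  have hNP : Inv N P := hP.mono (hNS.trans hS) (fun x hx => by
    obtain ⟨h1, h2⟩ := mem_filter.mp hx
    exact mem_filter.mpr ⟨h2, by rw [(hP x (hS h1)).2.2]; exact h1⟩)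
  have hev : Even (S0 \ N).card := by
    have h1 := card_sdiff_add_card_eq_card hNS
    have h2 := hF.1
    rw [← h1] at h2
    exact (Nat.even_add.mp h2).mpr hNP.even
  obtain ⟨Q, hQ⟩ := exists_inv_of_even _ hev
  have hP0 := hNP.piece hQ disjoint_sdiff
  rw [union_sdiff_of_subset hNS] at hP0
  obtain ⟨R0, hR0, hadj, hC⟩ := hF.2 _ hP0
  obtain ⟨P', h1, h2, h3⟩ := contract hP hS hR0 (by
    intro A hA c1 c2
    by_contra hne
    have := hC A hA (nonempty_iff_ne_empty.mpr hne) (fun x hx => by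
      have : x ∈ N := mem_filter.mpr ⟨hA hx, hA (c1 x hx)⟩
      simp only [if_pos this]
      exact c1 x hx) c2
    obtain ⟨x, k1, k2⟩ := hx
    rw [this] at c1
    exact k2 (c1 x k1))
  refine ⟨P', h1, fun x hx hPx => ?_, ?_⟩
  · obtain ⟨k1, k2⟩ := mem_sdiff.mp hx
    obtain ⟨k3, k4, k5⟩ := hP x k1
    have := h2 {x, P x} (by
      intro z hz
      rcases mem_insert.mp hz with rfl | hz
      · exact k1
      · rw [mem_singleton.mp hz]; exact k3) (by
      intro z hz
      rcases mem_insert.mp hz with rfl | hz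
      · simp
      · rw [mem_singleton.mp hz, k5]; simp) (by
      intro z hz hz0
      rcases mem_insert.mp hz with rfl | hz
      · exact absurd hz0 k2
      · rw [mem_singleton.mp hz] at hz0
        exact absurd hz0 hPx) x (by simp) k2
    rcases mem_insert.mp this with k6 | k6
    · exact absurd k6 (h1 x hx).2.1
    · exact mem_singleton.mp k6
  · rintro ⟨R', k1, k2, k3⟩
    obtain ⟨k4, k5⟩ := h3 R' k1 k3
    refine ⟨_, k4, fun x hx => ?_, k5⟩
    by_cases hx0 : x ∈ S0
    · simp only [if_pos hx0]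
      exact hadj x hx0
    · simp only [if_neg hx0]
      exact k2 x (mem_sdiff.mpr ⟨hx, hx0⟩)

/-- gluing pieces along a ranked spanning structure -/
theorem glue {adj : α → α → Prop} (ρ : Finset α → ℕ) (π0 : Finset α) (F : Finset (Finset α)) :
    π0 ∈ F → (∀ π ∈ F, Fk adj π) → (∀ π ∈ F, ∀ π' ∈ F, π ≠ π' → Disjoint π π') →
    ∀ P, Inv (F.biUnion id) P →
    (∀ π ∈ F, π ≠ π0 → ∃ x ∈ π, ∃ π' ∈ F, ρ π' < ρ π ∧ P x ∈ π') →
    Good adj (F.biUnion id) P := by
  induction F using Finset.strongInduction with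
  | H F ih =>
    intro h0 hF hd P hP hr
    rcases (F.erase π0).eq_empty_or_nonempty with he | hne
    · have : F = {π0} := by
        rw [← insert_erase h0, he]; rfl
      subst this
      simpa using (hF π0 h0).2 P (by simpa using hP)
    obtain ⟨π, hπ, hmax⟩ := exists_max_image _ ρ hne
    obtain ⟨hπ0, hπF⟩ := mem_erase.mp hπ
    have hsub : π ⊆ F.biUnion id := subset_biUnion_of_mem id hπF
    have e : F.biUnion id \ π = (F.erase π).biUnion id := by
      ext x
      simp only [mem_sdiff, mem_biUnion, mem_erase, id]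
      constructor
      · rintro ⟨⟨σ, h1, h2⟩, h3⟩
        exact ⟨σ, ⟨fun hh => h3 (hh ▸ h2), h1⟩, h2⟩
      · rintro ⟨σ, ⟨h1, h2⟩, h3⟩
        exact ⟨⟨σ, h2, h3⟩, fun hh => disjoint_left.mp (hd σ h2 π hπF h1) h3 hh⟩
    obtain ⟨P', h1, h2, h3⟩ := step hP hsub (hF π hπF) (by
      obtain ⟨x, k1, π', k2, k3, k4⟩ := hr π hπF hπ0
      exact ⟨x, k1, fun hh => disjoint_left.mp
        (hd π hπF π' k2 (fun h5 => by rw [h5] at k3; omega)) hh k4⟩)
    apply h3
    rw [e] at h1 h2 ⊢
    refine ih _ (erase_ssubset hπF) (mem_erase.mpr ⟨hπ0.symm, h0⟩)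
      (fun σ hσ => hF σ (mem_of_mem_erase hσ))
      (fun σ hσ τ hτ => hd σ (mem_of_mem_erase hσ) τ (mem_of_mem_erase hτ)) P' h1 ?_
    intro σ hσ hσ0
    obtain ⟨x, k1, π', k2, k3, k4⟩ := hr σ (mem_of_mem_erase hσ) hσ0
    have k5 := hmax σ (mem_erase.mpr ⟨hσ0, mem_of_mem_erase hσ⟩)
    have k6 : π' ≠ π := fun hh => by rw [hh] at k3; omega
    refine ⟨x, k1, π', mem_erase.mpr ⟨k6, k2⟩, k3, ?_⟩
    rw [h2 x (mem_biUnion.mpr ⟨σ, hσ, k1⟩) (fun hh => disjoint_left.mp (hd π' k2 π hπF k6) k4 hh)]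
    exact k4

end Pool.Agent.Lib.MP_88ff4d_co
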