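import Pool.Agent.Lib.MP_88ff4d_co.Contract

/-! Hypercube basics: Fink theorem, isoperimetry. -/

namespace Pool.Agent.Lib.MP_88ff4d_co

open Finset

/-- vertices of the cube -/
abbrev V (n : ℕ) := Fin n → ZMod 2

variable {n : ℕ}

/-- flip one coordinate -/
def fl (x : V n) (i : Fin n) : V n := x + Pi.single i 1

/-- adjacency -/
def adj (x y : V n) : Prop := ∃ i, y = fl x i

instance (x y : V n) : Decidable (adj x y) := by unfold adj; infer_instance

theorem add_self' (x : V n) : x + x = 0 := by
  funext i
  exact CharTwo.add_self_eq_zero _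

theorem fl_fl (x : V n) (i : Fin n) : fl (fl x i) i = x := by
  rw [fl, fl, add_assoc, add_self', add_zero]

theorem fl_apply_ne (x : V n) {i j : Fin n} (h : j ≠ i) : fl x i j = x j := by
  simp [fl, Pi.single_eq_of_ne h]

theorem fl_apply_self (x : V n) (i : Fin n) : fl x i i = x i + 1 := by
  simp [fl]

theorem z2_ne (a : ZMod 2) : a + 1 ≠ a := by revert a; decide

theorem z2_eq {a b : ZMod 2} (h : a ≠ b) : a = b + 1 := by revert a b; decide

theorem fl_ne (x : V n) (i : Fin n) : fl x i ≠ x := fun h => by
  have := congrFun h i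
  rw [fl_apply_self] at this
  exact z2_ne _ this

theorem fl_inj (x : V n) : Function.Injective (fl x) := by
  intro i j h
  by_contra hne
  have := congrFun h i
  rw [fl_apply_self, fl_apply_ne x hne] at this
  exact z2_ne _ this

theorem fl_left_inj (i : Fin n) : Function.Injective (fun x : V n => fl x i) :=
  fun _ _ h => add_right_cancel h

theorem fl_comm (x : V n) (i j : Fin n) : fl (fl x i) j = fl (fl x j) i := by
  simp only [fl]
  abel

theorem adj.symm {x y : V n} (h : adj x y) : adj y x := by
  obtain ⟨i, rfl⟩ := h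
  exact ⟨i, (fl_fl x i).symm⟩

theorem adj.ne {x y : V n} (h : adj x y) : y ≠ x := by
  obtain ⟨i, rfl⟩ := h
  exact fl_ne x i

theorem adj_fl (x : V n) (i : Fin n) : adj x (fl x i) := ⟨i, rfl⟩

/-- parity -/
def par (x : V n) : ZMod 2 := ∑ i, x i

theorem par_add (x y : V n) : par (x + y) = par x + par y := by
  simp [par, sum_add_distrib]

theorem par_single (i : Fin n) : par (Pi.single i 1 : V n) = 1 := by
  simp [par]

theorem par_fl (x : V n) (i : Fin n) : par (fl x i) = par x + 1 := by
  rw [fl, par_add, par_single]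

/-- sign -/
def sg (x : V n) : ℤ := if par x = 0 then 1 else -1

theorem sg_of_ne {x y : V n} (h : par x ≠ par y) : sg y = - sg x := by
  unfold sg
  generalize par x = a at *
  generalize par y = b at *
  revert a b
  decide

theorem adj.par_ne {x y : V n} (h : adj x y) : par x ≠ par y := by
  obtain ⟨i, rfl⟩ := h
  rw [par_fl]
  exact (z2_ne _).symm

theorem adj.sg {x y : V n} (h : adj x y) : sg y = - sg x := sg_of_ne h.par_ne

/-- subcube with free directions `D` through `b` -/
def Sub (D : Finset (Fin n)) (b : V n) : Finset (V n) := univ.filter fun x => ∀ i ∉ D, x i = b i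

theorem mem_Sub {D : Finset (Fin n)} {b x : V n} : x ∈ Sub D b ↔ ∀ i ∉ D, x i = b i := by
  simp [Sub]

theorem self_mem_Sub (D : Finset (Fin n)) (b : V n) : b ∈ Sub D b := mem_Sub.mpr fun _ _ => rfl

theorem Sub_eq_of_mem {D : Finset (Fin n)} {b x : V n} (h : x ∈ Sub D b) : Sub D x = Sub D b := by
  ext y
  rw [mem_Sub] at h
  simp only [mem_Sub]
  exact ⟨fun k i hi => (k i hi).trans (h i hi), fun k i hi => (k i hi).trans (h i hi).symm⟩

theorem fl_mem_Sub {D : Finset (Fin n)} {b x : V n} {i : Fin n} (hi : i ∈ D) (h : x ∈ Sub D b) :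
    fl x i ∈ Sub D b := by
  rw [mem_Sub] at h ⊢
  intro j hj
  rw [fl_apply_ne x (fun hh : j = i => hj (hh ▸ hi)), h j hj]

theorem inv_fl {S : Finset (V n)} {i : Fin n} (h : ∀ x ∈ S, fl x i ∈ S) :
    Inv S (fun x => fl x i) := fun x hx => ⟨h x hx, fl_ne x i, fl_fl x i⟩

theorem fink (D : Finset (Fin n)) : D.Nonempty → ∀ b : V n, Fk adj (Sub D b) := by
  induction D using Finset.strongInduction with
  | H D ih =>
    rintro ⟨i0, hi0⟩ b
    refine ⟨(inv_fl fun x hx => fl_mem_Sub hi0 hx).even, fun P hP => ?_⟩
    obtain ⟨h1, h2, -⟩ := hP b (self_mem_Sub D b)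
    obtain ⟨i, hi⟩ := Function.ne_iff.mp h2
    have hiD : i ∈ D := by
      by_contra hh
      exact hi (mem_Sub.mp h1 i hh)
    rcases (D.erase i).eq_empty_or_nonempty with he | hne
    · refine ⟨fun x => fl x i, inv_fl fun x hx => fl_mem_Sub hiD hx, fun x _ => adj_fl x i, ?_⟩
      rintro A hA ⟨x, hx⟩ - hc
      refine subset_antisymm hA fun y hy => ?_
      have k1 : ∀ j, j ≠ i → y j = x j := by
        intro j hj
        have : j ∉ D := fun hh => by
          have : j ∈ D.erase i := mem_erase.mpr ⟨hj, hh⟩
          rw [he] at this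
          simp at this
        rw [mem_Sub.mp hy j this, mem_Sub.mp (hA hx) j this]
      by_cases k2 : y i = x i
      · have : y = x := funext fun j => if hj : j = i then hj ▸ k2 else k1 j hj
        rw [this]; exact hx
      · have : y = fl x i := funext fun j => if hj : j = i then by
          rw [hj, fl_apply_self]; exact z2_eq k2 else by rw [fl_apply_ne x hj]; exact k1 j hj
        rw [this]; exact hc x hx
    · have hsub : Sub (D.erase i) b ⊆ Sub D b := fun x hx =>
        mem_Sub.mpr fun j hj => mem_Sub.mp hx j fun hh => hj (mem_of_mem_erase hh)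
      obtain ⟨P', k1, -, k3⟩ := step hP hsub (ih _ (erase_ssubset hiD) hne b)
        ⟨b, self_mem_Sub _ _, fun hh => hi (mem_Sub.mp hh i (notMem_erase i D))⟩
      apply k3
      have e : Sub D b \ Sub (D.erase i) b = Sub (D.erase i) (fl b i) := by
        ext x
        simp only [mem_sdiff, mem_Sub, mem_erase]
        constructor
        · rintro ⟨c1, c2⟩ j hj
          by_cases hji : j = i
          · subst hji
            rw [fl_apply_self]
            apply z2_eq
            intro hh
            apply c2
            intro l hl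
            by_cases hl2 : l = j
            · rw [hl2, hh]
            · exact c1 l fun h5 => hl ⟨hl2, h5⟩
          · rw [fl_apply_ne b hji]
            exact c1 j fun hh => hj ⟨hji, hh⟩
        · intro c1
          refine ⟨fun j hj => ?_, fun c2 => ?_⟩
          · have hji : j ≠ i := fun hh => hj (hh ▸ hiD)
            rw [c1 j fun hh => hj hh.2, fl_apply_ne b hji]
          · have e1 := c1 i (fun hh => hh.1 rfl)
            have e2 := c2 i (fun hh => hh.1 rfl)
            rw [fl_apply_self, e2] at e1
            exact z2_ne _ e1.symm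
      rw [e] at k1 ⊢
      exact (ih _ (erase_ssubset hiD) hne _).2 P' k1

/-- number of neighbours in a set -/
def dg (A : Finset (V n)) (x : V n) : ℕ := (A.filter (adj x)).card

theorem dg_eq (A : Finset (V n)) (x : V n) :
    dg A x = (univ.filter fun i => fl x i ∈ A).card := by
  symm
  apply card_bij (fun i _ => fl x i)
  · intro i hi
    exact mem_filter.mpr ⟨(mem_filter.mp hi).2, adj_fl x i⟩
  · intro i _ j _ h
    exact fl_inj x h
  · intro y hy
    obtain ⟨h1, i, rfl⟩ := mem_filter.mp hy
    exact ⟨i, mem_filter.mpr ⟨mem_univ _, h1⟩, rfl⟩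

theorem dg_mono {A B : Finset (V n)} (h : A ⊆ B) (x : V n) : dg A x ≤ dg B x :=
  card_le_card (filter_subset_filter _ h)

theorem dg_union_le (A B : Finset (V n)) (x : V n) : dg (A ∪ B) x ≤ dg A x + dg B x := by
  rw [dg, filter_union]
  exact card_union_le _ _

theorem dg_le_card (A : Finset (V n)) (x : V n) : dg A x ≤ A.card := card_filter_le _ _

theorem dg_univ (x : V n) : dg univ x = n := by
  rw [dg_eq]; simp

theorem dg_compl (A : Finset (V n)) (x : V n) : n ≤ dg (univ \ A) x + dg A x := by
  have := dg_union_le (univ \ A) A x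
  rwa [sdiff_union_of_subset (subset_univ A), dg_univ] at this

theorem mindeg (d : ℕ) : ∀ A : Finset (V n), A.Nonempty → (∀ x ∈ A, d ≤ dg A x) →
    2 ^ d ≤ A.card := by
  induction d with
  | zero => intro A hA _; exact card_pos.mpr hA
  | succ d ih =>
    rintro A ⟨x, hx⟩ h
    have h1 := h x hx
    rw [dg_eq] at h1
    obtain ⟨i, hi⟩ := card_pos.mp (by omega : 0 < (univ.filter fun i => fl x i ∈ A).card)
    have hi' := (mem_filter.mp hi).2
    have key : ∀ c : ZMod 2, ∀ y ∈ A.filter (fun z => z i = c),
        d ≤ dg (A.filter fun z => z i = c) y := by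
      intro c y hy
      obtain ⟨k1, k2⟩ := mem_filter.mp hy
      have k3 := h y k1
      rw [dg_eq] at k3 ⊢
      have k4 : (univ.filter fun j => fl y j ∈ A).erase i ⊆
          univ.filter fun j => fl y j ∈ A.filter fun z => z i = c := by
        intro j hj
        obtain ⟨k5, k6⟩ := mem_erase.mp hj
        refine mem_filter.mpr ⟨mem_univ _, mem_filter.mpr ⟨(mem_filter.mp k6).2, ?_⟩⟩
        rw [fl_apply_ne y k5.symm, k2]
      have k5 := card_le_card k4
      have k6 := pred_card_le_card_erase (s := univ.filter fun j => fl y j ∈ A) (a := i)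
      omega
    have e1 := ih (A.filter fun z => z i = x i) ⟨x, mem_filter.mpr ⟨hx, rfl⟩⟩ (key (x i))
    have e2 := ih _ ⟨fl x i, mem_filter.mpr ⟨hi', fl_apply_self x i⟩⟩ (key (x i + 1))
    have e3 : Disjoint (A.filter fun z => z i = x i) (A.filter fun z => z i = x i + 1) := by
      rw [disjoint_left]
      intro y k1 k2
      exact z2_ne _ ((mem_filter.mp k2).2.symm.trans (mem_filter.mp k1).2)
    have e4 := card_le_card (union_subset (filter_subset (fun z => z i = x i) A)
      (filter_subset (fun z => z i = x i + 1) A))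
    rw [card_union_of_disjoint e3] at e4
    omega

theorem pairs_le {W : Type*} [DecidableEq W] (π : W → V n) (c d : ℕ)
    (hc : ∀ (A : Finset W) (x : V n), (A.filter fun q => π q = x).card ≤ c) (A : Finset W) :
    (A.image π).card < 2 ^ (d + 1) →
    ∑ p ∈ A, (A.filter fun q => adj (π p) (π q)).card ≤ 2 * c * d * A.card := by
  induction A using Finset.strongInduction with
  | H A ih =>
    intro hA
    rcases A.eq_empty_or_nonempty with rfl | hne
    · simp
    obtain ⟨x, hx, hxd⟩ : ∃ x ∈ A.image π, dg (A.image π) x ≤ d := by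
      by_contra hh
      push Not at hh
      have := mindeg (d + 1) _ (hne.image π) hh
      omega
    obtain ⟨p, hp, rfl⟩ := mem_image.mp hx
    have h1 : (A.filter fun q => adj (π p) (π q)).card ≤ c * d := by
      have := card_le_mul_card_image_of_maps_to (f := π) (s := A.filter fun q => adj (π p) (π q))
        (t := (A.image π).filter (adj (π p))) (fun q hq => mem_filter.mpr
          ⟨mem_image_of_mem π (mem_filter.mp hq).1, (mem_filter.mp hq).2⟩) c
        (fun y _ => hc _ y)
      exact this.trans (Nat.mul_le_mul_left c hxd)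
    have h2 := ih (A.erase p) (erase_ssubset hp)
      (lt_of_le_of_lt (card_le_card (image_subset_image (erase_subset p A))) hA)
    have h3 : ∑ q ∈ A.erase p, (A.filter fun r => adj (π q) (π r)).card ≤
        ∑ q ∈ A.erase p, (((A.erase p).filter fun r => adj (π q) (π r)).card +
          if adj (π p) (π q) then 1 else 0) := by
      refine sum_le_sum fun q _ => ?_
      conv_lhs => rw [← insert_erase hp, filter_insert]
      split_ifs with c1 c2 c2
      · exact card_insert_le _ _
      · exact absurd c1.symm c2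
      · omega
      · omega
    rw [sum_add_distrib, ← card_filter] at h3
    have h4 : ((A.erase p).filter fun q => adj (π p) (π q)).card ≤
        (A.filter fun q => adj (π p) (π q)).card :=
      card_le_card (filter_subset_filter _ (erase_subset p A))
    rw [← add_sum_erase _ _ hp, ← card_erase_add_one hp]
    nlinarith

theorem pairs_le' (d : ℕ) (A : Finset (V n)) (hA : A.card < 2 ^ (d + 1)) :
    ∑ x ∈ A, dg A x ≤ 2 * d * A.card := by
  have := pairs_le (id : V n → V n) 1 d (fun A x => by
    rw [card_le_one]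
    intro a ha b hb
    exact (mem_filter.mp ha).2.trans (mem_filter.mp hb).2.symm) A (by simpa using hA)
  simpa [dg] using this

/-- number of points leaving `X` under a translation -/
def bd (X : Finset (V n)) (g : V n) : ℕ := (X.filter fun x => x + g ∉ X).card

theorem bd_add (X : Finset (V n)) (g h : V n) : bd X (g + h) ≤ bd X g + bd X h := by
  have h1 : (X.filter fun x => x + (g + h) ∉ X) ⊆ (X.filter fun x => x + g ∉ X) ∪
      (X.filter fun x => x + h ∉ X).image (fun y => y + g) := by
    intro x hx
    obtain ⟨k1, k2⟩ := mem_filter.mp hx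
    by_cases k3 : x + g ∈ X
    · refine mem_union_right _ (mem_image.mpr ⟨x + g, mem_filter.mpr ⟨k3, ?_⟩, ?_⟩)
      · rwa [add_assoc]
      · rw [add_assoc, add_self', add_zero]
    · exact mem_union_left _ (mem_filter.mpr ⟨k1, k3⟩)
  exact (card_le_card h1).trans ((card_union_le _ _).trans (Nat.add_le_add_left card_image_le _))

theorem bd_sum (X : Finset (V n)) (s : Fin n → V n) (β : ℕ) (h : ∀ i, bd X (s i) ≤ β)
    (I : Finset (Fin n)) : bd X (∑ i ∈ I, s i) ≤ I.card * β := by
  induction I using Finset.induction_on with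
  | empty =>
    simp only [sum_empty, bd, add_zero, card_empty, zero_mul, nonpos_iff_eq_zero, card_eq_zero,
      filter_eq_empty_iff]
    exact fun x hx hh => hh hx
  | insert i I hi ih =>
    rw [sum_insert hi, card_insert_of_notMem hi]
    have := bd_add X (s i) (∑ j ∈ I, s j)
    have := h i
    nlinarith

theorem cayley (H X : Finset (V n)) (hX : X ⊆ H) (hH : ∀ x ∈ H, ∀ y ∈ H, x + y ∈ H)
    (s : Fin n → V n) (hs : ∀ g ∈ H, ∃ I : Finset (Fin n), g = ∑ i ∈ I, s i) (β m : ℕ)
    (hβ : ∀ i, bd X (s i) ≤ β) (h1 : m ≤ X.card) (h2 : m ≤ (H \ X).card) : m ≤ 2 * n * β := by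
  have e1 : ∑ g ∈ H, bd X g ≤ H.card * (n * β) := by
    rw [← smul_eq_mul, ← sum_const]
    refine sum_le_sum fun g hg => ?_
    obtain ⟨I, rfl⟩ := hs g hg
    refine (bd_sum X s β hβ I).trans (Nat.mul_le_mul_right _ ?_)
    simpa using card_le_univ I
  have e2 : X.card * (H \ X).card ≤ ∑ g ∈ H, bd X g := by
    simp only [bd, card_filter]
    rw [sum_comm, ← smul_eq_mul, ← sum_const]
    refine sum_le_sum fun x hx => ?_
    rw [← card_filter]
    apply card_le_card_of_injOn (fun y => x + y)
    · intro y hy
      obtain ⟨k1, k2⟩ := mem_sdiff.mp hy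
      refine mem_filter.mpr ⟨hH x (hX hx) y k1, ?_⟩
      rwa [← add_assoc, add_self', zero_add]
    · intro y _ z _ h
      exact add_left_cancel h
  have e3 := card_sdiff_add_card_eq_card hX
  rcases Nat.eq_zero_or_pos m with rfl | hm
  · exact Nat.zero_le _
  have e4 : m * H.card ≤ 2 * (X.card * (H \ X).card) := by
    rw [← e3]
    nlinarith
  have e5 : 0 < H.card := by omega
  have : m * H.card ≤ 2 * n * β * H.card := by nlinarith
  exact Nat.le_of_mul_le_mul_right this e5

theorem eq_sum_single (g : V n) :
    g = ∑ i ∈ univ.filter (fun i => g i = 1), (Pi.single i 1 : V n) := by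
  funext j
  rw [Finset.sum_apply]
  simp only [Pi.single_apply, sum_ite_eq, mem_filter, mem_univ, true_and]
  generalize g j = a
  revert a
  decide

theorem connected_compl (T : Finset (V n)) (θ : ℕ) (hT : ∀ y ∉ T, dg T y ≤ θ)
    (hb : 2 * n * T.card < 2 ^ (n - θ)) (K : Finset (V n)) (hK : K ⊆ univ \ T) (hne : K.Nonempty)
    (hc : ∀ x ∈ K, ∀ y ∉ T, adj x y → y ∈ K) : K = univ \ T := by
  have big : ∀ K' : Finset (V n), K' ⊆ univ \ T → K'.Nonempty →
      (∀ x ∈ K', ∀ y ∉ T, adj x y → y ∈ K') → 2 ^ (n - θ) ≤ K'.card := by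
    intro K' k1 k2 k3
    refine mindeg _ K' k2 fun x hx => ?_
    have e1 := dg_compl T x
    have e2 := hT x (mem_sdiff.mp (k1 hx)).2
    have e3 : dg (univ \ T) x ≤ dg K' x := card_le_card fun y hy => by
      obtain ⟨c1, c2⟩ := mem_filter.mp hy
      exact mem_filter.mpr ⟨k3 x hx y (mem_sdiff.mp c1).2 c2, c2⟩
    omega
  by_contra hcon
  have h1 := big K hK hne hc
  have h2 := big ((univ \ T) \ K) sdiff_subset
    (sdiff_nonempty.mpr fun hh => hcon (subset_antisymm hK hh)) (by
      intro x hx y hy hxy
      obtain ⟨c1, c2⟩ := mem_sdiff.mp hx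
      exact mem_sdiff.mpr ⟨mem_sdiff.mpr ⟨mem_univ _, hy⟩,
        fun hh => c2 (hc y hh x (mem_sdiff.mp c1).2 hxy.symm)⟩)
  have h3 := cayley univ K (subset_univ _) (fun _ _ _ _ => mem_univ _) (fun i => Pi.single i 1)
    (fun g _ => ⟨_, eq_sum_single g⟩) T.card _ (fun i => by
      apply card_le_card_of_injOn (fun x => fl x i)
      · intro x hx
        obtain ⟨c1, c2⟩ := mem_filter.mp hx
        by_contra hh
        exact c2 (hc x c1 _ hh (adj_fl x i))
      · exact (fl_left_inj i).injOn) h1
    (h2.trans (card_le_card (sdiff_subset_sdiff sdiff_subset le_rfl)))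
  omega

end Pool.Agent.Lib.MP_88ff4d_co
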