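import Pool.Agent.Lib.MP_88ff4d_co.Ports

/-! Assembly: a single cycle of ports through a small matching. -/

namespace Pool.Agent.Lib.MP_88ff4d_co

open Finset

variable {n : ℕ}

theorem eq_sw {p q : V n × Bool} (h : q.1 = p.1) (h2 : q ≠ p) : q = sw p := by
  obtain ⟨x, b⟩ := p
  obtain ⟨y, c⟩ := q
  simp only at h
  subst h
  cases b <;> cases c <;> simp_all [sw]

theorem mem_false {A : Finset (V n × Bool)} (h : Cl A sw) {p : V n × Bool} (hp : p ∈ A)
    (b : Bool) : (p.1, b) ∈ A := by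
  by_cases e : (p.1, b) = p
  · rwa [e]
  · rw [eq_sw (p := p) (q := (p.1, b)) rfl e]
    exact h p hp

/-- the prescribed part: matching edges and the virtual edge -/
theorem exists_pre (μ : V n → V n) (hμ : ∀ x, μ (μ x) = x) (hadj : ∀ x, μ x ≠ x → adj x (μ x))
    (u v : V n) (huv : par u ≠ par v) (hμu : μ u ≠ v) :
    ∃ (S : Finset (V n × Bool)) (R : V n × Bool → V n × Bool), Inv S R ∧
      (∀ p, p ∈ S ↔ (p.2 = true ∧ μ p.1 ≠ p.1) ∨ p = (u, false) ∨ p = (v, false)) ∧
      R (u, false) = (v, false) ∧ (∀ x, R (x, true) = (μ x, true)) ∧ ∑ p ∈ S, sg p.1 = 0 ∧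
      ∀ A ⊆ S, Cl A sw → Cl A R → A = ∅ := by
  have hne : u ≠ v := fun h => huv (h ▸ rfl)
  let R : V n × Bool → V n × Bool := fun p =>
    if p.2 = true then (μ p.1, true) else (if p.1 = u then v else u, false)
  have R1 : ∀ x, R (x, true) = (μ x, true) := fun x => by simp [R]
  have R2 : R (u, false) = (v, false) := by simp [R]
  have R3 : R (v, false) = (u, false) := by simp [R, hne.symm]
  set S := univ.filter fun p : V n × Bool =>
    (p.2 = true ∧ μ p.1 ≠ p.1) ∨ p = (u, false) ∨ p = (v, false) with hS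
  have hm : ∀ p, p ∈ S ↔ (p.2 = true ∧ μ p.1 ≠ p.1) ∨ p = (u, false) ∨ p = (v, false) :=
    fun p => by simp only [hS, mem_filter, mem_univ, true_and]
  have hI : Inv S R := by
    rintro ⟨x, b⟩ hp
    rcases (hm _).mp hp with ⟨h1, h2⟩ | h | h
    · simp only at h1 h2
      subst h1
      rw [R1, R1, hμ]
      exact ⟨(hm _).mpr (Or.inl ⟨rfl, by rw [hμ]; exact h2.symm⟩),
        fun h => h2 (congrArg Prod.fst h), rfl⟩
    · rw [h, R2, R3]
      exact ⟨(hm _).mpr (Or.inr (Or.inr rfl)), fun h => hne (congrArg Prod.fst h).symm, rfl⟩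
    · rw [h, R3, R2]
      exact ⟨(hm _).mpr (Or.inr (Or.inl rfl)), fun h => hne (congrArg Prod.fst h), rfl⟩
  refine ⟨S, R, hI, hm, R2, R1, hI.sum_eq_zero (fun p => sg p.1) ?_, fun A hA c1 c2 => ?_⟩
  · rintro ⟨x, b⟩ hp
    rcases (hm _).mp hp with ⟨h1, h2⟩ | h | h
    · simp only at h1 h2
      subst h1
      rw [R1]
      exact (hadj x h2).sg
    · rw [h, R2]
      exact sg_of_ne huv
    · rw [h, R3]
      exact sg_of_ne huv.symm
  · rw [eq_empty_iff_forall_notMem]
    intro p hp
    have k : ∀ q ∈ A, q.1 = u ∨ q.1 = v := by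
      intro q hq
      rcases (hm _).mp (hA (mem_false c1 hq false)) with h | h | h
      · simp at h
      · exact Or.inl (congrArg Prod.fst h)
      · exact Or.inr (congrArg Prod.fst h)
    have k1 : (u, false) ∈ A := by
      have := mem_false c1 hp false
      rcases k p hp with h | h <;> rw [h] at this
      · exact this
      · exact R3 ▸ c2 _ this
    have k2 : (u, true) ∈ A := mem_false c1 k1 true
    have k3 := k _ (c2 _ k2)
    rw [R1] at k3
    rcases (hm _).mp (hA k2) with h | h | h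
    · exact k3.elim h.2 hμu
    · simp at h
    · simp at h

theorem exists_ports {a L : ℕ} (hL : n ≤ 2 ^ L) (hL1 : 1 ≤ L)
    (hn : 16 * (a + 3 + 2 * L) + (2 * L + 2) + 2 ≤ n / 2)
    (μ : V n → V n) (hμ : ∀ x, μ (μ x) = x) (hadj : ∀ x, μ x ≠ x → adj x (μ x))
    (hc : (univ.filter fun x => μ x ≠ x).card ≤ 2 ^ (a + 1))
    (u v : V n) (huv : par u ≠ par v) (hμu : μ u ≠ v) :
    ∃ R : V n × Bool → V n × Bool, Inv univ R ∧ Conn univ sw R ∧ R (u, false) = (v, false) ∧
      (∀ x, μ x ≠ x → R (x, true) = (μ x, true)) ∧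
      ∀ p, p ≠ (u, false) → p ≠ (v, false) → adj p.1 (R p).1 := by
  obtain ⟨T, Sd, σ, t1, t2, t3, t4, s1, s2, s3, s4, s5, hG⟩ := exists_region (a := a) hL hL1
    (by omega) ((univ.filter fun x => μ x ≠ x) ∪ {u, v}) (by
      have := card_union_le (univ.filter fun x => μ x ≠ x) {u, v}
      have := card_le_two (a := u) (b := v)
      have : 1 ≤ 2 ^ a := Nat.one_le_two_pow
      rw [pow_succ] at hc
      rw [pow_add]
      omega) ⟨u, by simp⟩
  obtain ⟨S1, R1, a1, a2, a3, a4, a5, a6⟩ := exists_pre μ hμ hadj u v huv hμu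
  have hS1T : ∀ p ∈ S1, p.1 ∈ T := by
    intro p hp
    apply t1
    rcases (a2 p).mp hp with h | h | h
    · exact mem_union_left _ (mem_filter.mpr ⟨mem_univ _, h.2⟩)
    · simp [h]
    · simp [h]
  obtain ⟨P0, b1, b2, b3⟩ := contract inv_sw (subset_univ S1) a1 a6
  set S0 := univ \ S1 with hS0
  have hm0 : ∀ p, p ∈ S0 ↔ p ∉ S1 := fun p => by simp [hS0]
  have h2 : ∀ p : V n × Bool, p.1 ∉ T → p ∈ S0 ∧ P0 p = sw p := by
    intro p hp
    have k : p ∉ S1 := fun h => hp (hS1T p h)
    refine ⟨(hm0 p).mpr k, eq_sw ?_ (b1 p ((hm0 p).mpr k)).2.1⟩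
    exact (mem_filter.mp (b2 (univ.filter fun q => q.1 = p.1) (subset_univ _)
      (fun q hq => mem_filter.mpr ⟨mem_univ _, (mem_filter.mp hq).2⟩)
      (fun q hq h => absurd (hS1T q h) (by rwa [(mem_filter.mp hq).2])) p
      (mem_filter.mpr ⟨mem_univ _, rfl⟩) k)).2
  obtain ⟨D, R, d1, d2, d3, d4, d5, d6, d7⟩ := exists_route (d := a + 3 + 2 * L) (by omega)
    (by omega) hn T Sd u v S0 P0 b1 t2 t4 s5 (fun p hp hT =>
      (mem_filter.mp (b2 (univ.filter fun q => q.1 ∈ T) (subset_univ _)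
        (fun q hq => mem_filter.mpr ⟨mem_univ _, (mem_filter.mp hq).2⟩)
        (fun q _ h => mem_filter.mpr ⟨mem_univ _, hS1T _ (a1 q h).1⟩) p
        (mem_filter.mpr ⟨mem_univ _, hT⟩) ((hm0 p).mp hp))).2) h2
    (fun y k1 k2 => (hm0 _).mpr fun h => by simpa [k1, k2] using (a2 _).mp h)
  set Z := (D.filter fun p => p.1 ∉ T).image Prod.fst with hZ
  have hmZ : ∀ x, x ∈ Z ↔ x ∉ T ∧ (x, true) ∈ D := by
    intro x
    constructor
    · intro h
      obtain ⟨p, hp, rfl⟩ := mem_image.mp h
      obtain ⟨k1, k2⟩ := mem_filter.mp hp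
      exact ⟨k2, by rwa [← (d5 p k1 k2).1]⟩
    · rintro ⟨k1, k2⟩
      exact mem_image.mpr ⟨(x, true), mem_filter.mpr ⟨k2, k1⟩, rfl⟩
  have hZ0 : ∑ x ∈ Z, sg x = 0 := by
    have e1 := d1.sum_eq_zero (fun p => sg p.1) fun p hp => (d2 p hp).sg
    rw [← sum_filter_add_sum_filter_not D fun p => p.1 ∈ T] at e1
    have e2 : (D.filter fun p => p.1 ∈ T) = (T ×ˢ univ) \ S1 := by
      ext p
      simp only [mem_filter, mem_sdiff, mem_product, mem_univ, and_true]
      exact ⟨fun h => ⟨h.2, (hm0 p).mp (d3 h.1)⟩, fun h => ⟨d4 p ((hm0 p).mpr h.2) h.1, h.1⟩⟩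
    have e3 := sum_sdiff (f := fun p : V n × Bool => sg p.1) (s₁ := S1) (s₂ := T ×ˢ univ)
      fun p hp => mem_product.mpr ⟨hS1T p hp, mem_univ _⟩
    rw [a5, sum_product, sum_comm] at e3
    simp only [t3, sum_const_zero, add_zero] at e3
    rw [e2, e3, zero_add] at e1
    rw [hZ, sum_image, e1]
    intro p hp q hq h
    obtain ⟨k1, k2⟩ := mem_filter.mp hp
    obtain ⟨k3, k4⟩ := mem_filter.mp hq
    exact Prod.ext h ((d5 p k1 k2).1.trans (d5 q k3 k4).1.symm)
  have hZS : ∀ x ∈ Z, x ∉ Sd := fun x hx => (d5 _ ((hmZ x).mp hx).2 ((hmZ x).mp hx).1).2.1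
  have hST : ∀ x ∈ Sd, x ∉ T := fun x hx => (mem_sdiff.mp (s1 hx)).2
  obtain ⟨N, n1, n2⟩ := exists_pm (by omega) (T ∪ Sd ∪ Z) (n / 2 - 2 * (a + 3) - (2 * L + 2))
    (a + 3 + 2 * L + L + 4) (by
      have e1 := sum_sdiff (f := fun x : V n => sg x) (subset_univ (T ∪ Sd ∪ Z))
      rw [sum_union (disjoint_left.mpr fun x h1 h2 => (mem_union.mp h1).elim ((hmZ x).mp h2).1
          (hZS x h2)), sum_union (disjoint_left.mpr fun x h1 h2 => hST x h2 h1), t3, hZ0,
        s2.sum_eq_zero sg fun x hx => (s3 x hx).sg,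
        (inv_fl (i := ⟨0, by omega⟩) fun x _ => mem_univ _).sum_eq_zero sg
          fun x _ => (adj_fl _ _).sg] at e1
      simpa using e1) (by
      intro y hy
      have e1 := dg_compl (T ∪ Sd ∪ Z) y
      have e2 := dg_union_le (T ∪ Sd) Z y
      have e3 := dg_union_le T Sd y
      have e4 := t4 y fun h => hy (mem_union_left _ (mem_union_left _ h))
      have e5 := s5 y
      have e6 := (dg_mono (A := Z) (fun x hx => mem_filter.mpr ⟨mem_univ _,
        (d5 _ ((hmZ x).mp hx).2 ((hmZ x).mp hx).1).2.2⟩) y).trans (dg_col y).2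
      omega) (by omega) (by
      have e1 := card_union_le (T ∪ Sd) Z
      have e2 := card_union_le T Sd
      have e3 : Z.card ≤ _ := card_image_le
      calc 2 * n * (T ∪ Sd ∪ Z).card ≤ 2 * 2 ^ L * (4 * 2 ^ (a + 3 + 2 * L)) := by
            gcongr
            omega
        _ = 2 ^ (a + 3 + 2 * L + L + 3) := by ring
        _ < _ := Nat.pow_lt_pow_right (by norm_num) (by omega))
  have hν := s2.piece n1 (disjoint_left.mpr fun x h1 h2 => (mem_sdiff.mp h2).2
    (mem_union_left _ (mem_union_right _ h1)))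
  set ν : V n → V n := fun x => if x ∈ Sd then σ x else N x with hνd
  have hmν : ∀ x, x ∈ Sd ∪ univ \ (T ∪ Sd ∪ Z) ↔ x ∉ T ∧ x ∉ Z := by
    intro x
    have := hZS x
    have := hST x
    simp only [mem_union, mem_sdiff, mem_univ, true_and]
    tauto
  have hνa : ∀ x, x ∉ T → x ∉ Z → adj x (ν x) := by
    intro x k1 k2
    by_cases c : x ∈ Sd
    · simp only [hνd, if_pos c]
      exact s3 x c
    · simp only [hνd, if_neg c]
      exact n2 x ((mem_union.mp ((hmν x).mpr ⟨k1, k2⟩)).resolve_left c)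
  set E := univ.filter fun p : V n × Bool => p.2 = true ∧ p.1 ∉ T ∧ p.1 ∉ Z with hE
  have hmE : ∀ p, p ∈ E ↔ p.2 = true ∧ p.1 ∉ T ∧ p.1 ∉ Z := fun p => by simp [hE]
  have hRE : Inv E fun p => (ν p.1, true) := by
    intro p hp
    obtain ⟨k1, k2⟩ := (hmE p).mp hp
    obtain ⟨c1, c2, c3⟩ := hν p.1 ((hmν _).mpr k2)
    exact ⟨(hmE _).mpr ⟨rfl, (hmν _).mp c1⟩, fun h => c2 (congrArg Prod.fst h),
      Prod.ext c3 k1.symm⟩
  have hR2 := d1.piece hRE (disjoint_left.mpr fun p h1 h2 => by
    obtain ⟨k1, k2, k3⟩ := (hmE p).mp h2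
    exact k3 ((hmZ _).mpr ⟨k2, by rwa [← k1]⟩))
  have hF : ∀ x, x ∉ T → (x, false) ∉ D ∪ E := by
    intro x hx h
    rcases mem_union.mp h with h | h
    · simpa using (d5 _ h hx).1
    · simpa using ((hmE _).mp h).1
  obtain ⟨P2, c1, c2, c3⟩ := contract b1 (union_subset d3 fun p hp => (h2 p ((hmE p).mp hp).2.1).1)
    hR2 (by
      intro A hA k1 k2
      have k3 : ∀ p ∈ A, p.1 ∈ T := by
        intro p hp
        by_contra h
        have k4 := k1 p hp
        rw [(h2 p h).2] at k4
        by_cases e : (p.1, false) = p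
        · exact hF _ h (by rw [e]; exact hA hp)
        · exact hF _ h (by rw [eq_sw (p := p) (q := (p.1, false)) rfl e]; exact hA k4)
      have k4 : A ⊆ D := fun p hp =>
        (mem_union.mp (hA hp)).resolve_right fun h => ((hmE p).mp h).2.1 (k3 p hp)
      exact d7 A k4 k3 k1 fun p hp => by simpa only [if_pos (k4 hp)] using k2 p hp)
  have eO : S0 \ (D ∪ E) = (univ \ T).image fun x => (x, false) := by
    ext ⟨x, b⟩
    constructor
    · intro h
      obtain ⟨k1, k2⟩ := mem_sdiff.mp h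
      rw [mem_union, not_or] at k2
      have k3 : x ∉ T := fun h => k2.1 (d4 _ k1 h)
      refine mem_image.mpr ⟨x, mem_sdiff.mpr ⟨mem_univ _, k3⟩, ?_⟩
      cases b
      · rfl
      · exact absurd ((hmE _).mpr ⟨rfl, k3, fun h => k2.1 ((hmZ x).mp h).2⟩) k2.2
    · intro h
      obtain ⟨y, k1, k2⟩ := mem_image.mp h
      rw [← k2]
      exact mem_sdiff.mpr ⟨(h2 (y, false) (mem_sdiff.mp k1).2).1, hF y (mem_sdiff.mp k1).2⟩
  rw [eO] at c1 c3
  obtain ⟨e1, e2⟩ := transport c1
  obtain ⟨R3, r1, r2, r3⟩ := e2 (hG _ e1 fun x hx => by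
    have k0 : ∀ q : V n × Bool, q.1 = x ∨ q.1 = σ x → q.1 ∈ Sd := fun q h =>
      h.elim (fun h => h ▸ hx) fun h => h ▸ (s2 x hx).1
    have := (mem_filter.mp (c2 (univ.filter fun q => q.1 = x ∨ q.1 = σ x)
      (fun q hq => (h2 q (hST _ (k0 q (mem_filter.mp hq).2))).1)
      (fun q hq => by
        rw [(h2 q (hST _ (k0 q (mem_filter.mp hq).2))).2]
        exact mem_filter.mpr ⟨mem_univ _, (mem_filter.mp hq).2⟩)
      (fun q hq _ => by
        have k1 := k0 q (mem_filter.mp hq).2
        have k2 : q ∉ D := fun h => (d5 q h (hST _ k1)).2.1 k1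
        simp only [if_neg k2, hνd, if_pos k1]
        refine mem_filter.mpr ⟨mem_univ _, ?_⟩
        rcases (mem_filter.mp hq).2 with h | h
        · exact Or.inr (by rw [h])
        · exact Or.inl (by rw [h, (s2 x hx).2.2]))
      (x, false) (mem_filter.mpr ⟨mem_univ _, Or.inl rfl⟩) (hF x (hST x hx)))).2
    exact this.resolve_left (e1 x (s1 hx)).2.1)
  obtain ⟨f1, f2⟩ := c3 R3 r1 r3
  obtain ⟨g1, g2⟩ := b3 _ f1 f2
  refine ⟨_, g1, g2, ?_, fun x hx => ?_, fun p k1 k2 => ?_⟩
  · simp only [if_pos ((a2 _).mpr (Or.inr (Or.inl rfl))), a3]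
  · simp only [if_pos ((a2 (x, true)).mpr (Or.inl ⟨rfl, hx⟩)), a4]
  · by_cases c : p ∈ S1
    · simp only [if_pos c]
      obtain ⟨x, b⟩ := p
      obtain ⟨k3, k4⟩ := (((a2 _).mp c).resolve_right (not_or.mpr ⟨k1, k2⟩))
      simp only at k3 k4
      subst k3
      rw [a4]
      exact hadj x k4
    simp only [if_neg c]
    by_cases c' : p ∈ D ∪ E
    · simp only [if_pos c']
      by_cases c'' : p ∈ D
      · simp only [if_pos c'']
        exact d2 p c''
      · simp only [if_neg c'']
        have := (hmE p).mp ((mem_union.mp c').resolve_left c'')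
        exact hνa _ this.2.1 this.2.2
    · simp only [if_neg c']
      exact r2 p (eO ▸ mem_sdiff.mpr ⟨(hm0 p).mpr c, c'⟩)

theorem walk_of_seq {β : Type*} (G : SimpleGraph β) (c : ℕ → β) (k : ℕ) :
    (∀ i < k, G.Adj (c i) (c (i + 1))) → ∀ a b, c 0 = a → c k = b → ∃ w : G.Walk a b,
      w.support = (List.range (k + 1)).map c ∧ ∀ i < k, s(c i, c (i + 1)) ∈ w.edges := by
  induction k with
  | zero =>
    rintro - a b rfl rfl
    exact ⟨.nil, by simp, fun i hi => absurd hi (Nat.not_lt_zero i)⟩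
  | succ k ih =>
    rintro h a b rfl rfl
    obtain ⟨w, h1, h2⟩ := ih (fun i hi => h i (by omega)) _ _ rfl rfl
    refine ⟨w.concat (h k (by omega)), ?_, fun i hi => ?_⟩
    · rw [SimpleGraph.Walk.support_concat, h1, List.range_succ (n := k + 1)]
      simp
    · rw [SimpleGraph.Walk.edges_concat]
      rcases Nat.lt_succ_iff_lt_or_eq.mp hi with h3 | rfl
      · simp [h2 i h3]
      · simp

theorem sw_sw (p : V n × Bool) : sw (sw p) = p := by simp [sw]

/-- reading off the Hamilton path -/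
theorem path_of_ports (G : SimpleGraph (V n)) (R : V n × Bool → V n × Bool) (hR : Inv univ R)
    (hC : Conn univ sw R) (u v : V n) (huv : R (u, false) = (v, false))
    (hadj : ∀ p, p ≠ (u, false) → p ≠ (v, false) → G.Adj p.1 (R p).1) :
    ∃ w : G.Walk u v, w.IsHamiltonian ∧
      ∀ x y, R (x, true) = (y, true) → s(x, y) ∈ w.edges := by
  classical
  have RR : ∀ p, R (R p) = p := fun p => (hR p (mem_univ p)).2.2
  let f : V n × Bool → V n × Bool := fun p => sw (R p)
  have f1 : ∀ p, R (sw (f p)) = p := fun p => by simp only [f, sw_sw, RR]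
  have finj : Function.Injective f := fun p q h => by rw [← f1 p, h, f1]
  have hper : (u, true) ∈ Function.periodicPts f := finj.mem_periodicPts _
  set m := Function.minimalPeriod f (u, true) with hm
  have m0 : 0 < m := Function.minimalPeriod_pos_of_mem_periodicPts hper
  have fm : f^[m] (u, true) = (u, true) := Function.iterate_minimalPeriod
  have fv : f (v, false) = (u, true) := by simp only [f, ← huv, RR]; rfl
  have dih : ∀ k p, f^[k] p ≠ sw p := by
    intro k
    induction k using Nat.strong_induction_on with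
    | _ k ih =>
      intro p h
      rcases k with _ | _ | k
      · exact (inv_sw p (mem_univ p)).2.1 h.symm
      · exact (hR p (mem_univ p)).2.1 (by
          have h' : sw (R p) = sw p := h
          rw [← sw_sw (R p), h', sw_sw])
      · refine ih k (by omega) (f p) (finj ?_)
        rw [← Function.iterate_succ_apply, ← Function.iterate_succ_apply' f, h]
        simp only [f, sw_sw, RR]
  have hinj : ∀ i j, i < j → j < m → (f^[i] (u, true)).1 ≠ (f^[j] (u, true)).1 := by
    intro i j h1 h2 h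
    by_cases e : f^[j] (u, true) = f^[i] (u, true)
    · have := Function.iterate_injOn_Iio_minimalPeriod (f := f) (x := (u, true)) h2
        (show i < m by omega) e
      omega
    · refine dih (j - i) (f^[i] (u, true)) ?_
      rw [← Function.iterate_add_apply, Nat.sub_add_cancel h1.le]
      exact eq_sw h.symm e
  obtain ⟨k, hk⟩ : ∃ k, m = k + 1 := ⟨m - 1, by omega⟩
  have fk : f^[k] (u, true) = (v, false) := finj (by
    rw [← Function.iterate_succ_apply' f, fv, Nat.succ_eq_add_one, ← hk, fm])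
  have hO : ∀ p, ∃ i < m, f^[i] (u, true) = p ∨ f^[i] (u, true) = sw p := by
    have := hC (univ.filter fun p => ∃ i, f^[i] (u, true) = p ∨ f^[i] (u, true) = sw p)
      (subset_univ _) ⟨(u, true), mem_filter.mpr ⟨mem_univ _, 0, Or.inl rfl⟩⟩ (fun p hp => by
        obtain ⟨i, hi⟩ := (mem_filter.mp hp).2
        exact mem_filter.mpr ⟨mem_univ _, i, by rw [sw_sw]; exact hi.symm⟩) (fun p hp => by
        obtain ⟨i, hi | hi⟩ := (mem_filter.mp hp).2
        · exact mem_filter.mpr ⟨mem_univ _, i + 1, Or.inr (by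
            rw [Function.iterate_succ_apply', hi])⟩
        · refine mem_filter.mpr ⟨mem_univ _, k + i, Or.inl (finj ?_)⟩
          rw [← Function.iterate_succ_apply' f, show (k + i).succ = i + m by omega,
            Function.iterate_add_apply, fm, hi]
          simp only [f, RR])
    intro p
    obtain ⟨i, hi⟩ := (mem_filter.mp (this.symm ▸ mem_univ p)).2
    exact ⟨i % m, Nat.mod_lt _ m0, by rwa [Function.iterate_mod_minimalPeriod_eq]⟩
  obtain ⟨w, w1, w2⟩ := walk_of_seq G (fun i => (f^[i] (u, true)).1) k (fun i hi => by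
    rw [Function.iterate_succ_apply']
    refine hadj _ (fun h => dih i _ h) fun h => hinj i k hi (by omega) (by rw [h, fk])) u v rfl
    (by rw [fk])
  have key : ∀ x y, R (x, true) = (y, true) → ∀ i < m, f^[i] (u, true) = (x, true) →
      s(x, y) ∈ w.edges := by
    intro x y h i hi e
    have hik : i ≠ k := fun hh => by simp [hh, fk] at e
    have := w2 i (by omega)
    simp only [Function.iterate_succ_apply', e, f, h] at this
    exact this
  refine ⟨w, SimpleGraph.Walk.IsPath.isHamiltonian_of_mem ?_ fun x => ?_, fun x y h => ?_⟩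
  · rw [SimpleGraph.Walk.isPath_def, w1]
    refine List.Nodup.map_on (fun i hi j hj h => ?_) List.nodup_range
    rw [List.mem_range] at hi hj
    rcases lt_trichotomy i j with c | c | c
    · exact absurd h (hinj i j c (by omega))
    · exact c
    · exact absurd h.symm (hinj j i c (by omega))
  · rw [w1]
    obtain ⟨i, hi, h⟩ := hO (x, true)
    exact List.mem_map.mpr ⟨i, List.mem_range.mpr (by omega), h.elim (fun h => by rw [h]) fun h => by rw [h]; rfl⟩
  · obtain ⟨i, hi, e | e⟩ := hO (x, true)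
    · exact key x y h i hi e
    · rw [Sym2.eq_swap]
      refine key y x (by rw [← h, RR]) ((k + i) % m) (Nat.mod_lt _ m0) (finj ?_)
      rw [Function.iterate_mod_minimalPeriod_eq, ← Function.iterate_succ_apply' f,
        show (k + i).succ = i + m by omega, Function.iterate_add_apply, fm, e, ← h]
      simp only [f, RR]

theorem adj_iff (x y : V n) : adj x y ↔ hammingDist x y = 1 := by
  rw [hammingDist, card_eq_one]
  constructor
  · rintro ⟨i, rfl⟩
    refine ⟨i, ?_⟩
    ext j
    by_cases h : j = i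
    · subst h
      simp [fl_apply_self]
    · simp [fl_apply_ne x h, h]
  · rintro ⟨i, hi⟩
    refine ⟨i, funext fun j => ?_⟩
    have := Finset.ext_iff.mp hi j
    simp only [mem_filter, mem_univ, true_and, mem_singleton] at this
    by_cases h : j = i
    · subst h
      rw [fl_apply_self]
      exact z2_eq (this.mpr rfl).symm
    · rw [fl_apply_ne x h]
      by_contra hh
      exact h (this.mp fun e => hh e.symm)

theorem small_matching (n a : ℕ) (hn : 32 * a + 68 * Nat.clog 2 n + 104 ≤ n)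
    (G : SimpleGraph (Fin n → ZMod 2)) (hG : ∀ x y, G.Adj x y ↔ hammingDist x y = 1)
    (M : G.Subgraph) (hM : M.IsMatching) (hc : M.edgeSet.ncard ≤ 2 ^ a)
    (u v : Fin n → ZMod 2) (huv : ∑ i, u i ≠ ∑ i, v i) (h3 : ¬ M.Adj u v) :
    ∃ p : G.Walk u v, p.IsHamiltonian ∧ ∀ e ∈ M.edgeSet, e ∈ p.edges := by
  classical
  let μ : V n → V n := fun x => if h : x ∈ M.verts then (hM h).exists.choose else x
  have m1 : ∀ x, μ x ≠ x → M.Adj x (μ x) := by
    intro x hx
    by_cases h : x ∈ M.verts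
    · simp only [μ, dif_pos h]
      exact (hM h).exists.choose_spec
    · simp only [μ, dif_neg h] at hx
      exact absurd rfl hx
  have m2 : ∀ x y, M.Adj x y → μ x = y := by
    intro x y hxy
    have h := M.edge_vert hxy
    simp only [μ, dif_pos h]
    exact (hM h).unique (hM h).exists.choose_spec hxy
  have m3 : ∀ x, μ (μ x) = x := by
    intro x
    by_cases h : μ x = x
    · rw [h, h]
    · exact m2 _ _ (m1 x h).symm
  obtain ⟨R, r1, r2, r3, r4, r5⟩ := exists_ports (a := a) (Nat.le_pow_clog one_lt_two n)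
    (Nat.clog_pos one_lt_two (by omega)) (by omega) μ m3
    (fun x hx => (adj_iff _ _).mpr ((hG _ _).mp (m1 x hx).adj_sub)) (by
      rw [Set.ncard_eq_toFinset_card'] at hc
      rw [pow_succ']
      refine le_trans (card_le_mul_card_image_of_maps_to (f := fun x => s(x, μ x))
        (t := M.edgeSet.toFinset) (fun x hx => Set.mem_toFinset.mpr (m1 x (mem_filter.mp hx).2)) 2
        fun e _ => ?_) (Nat.mul_le_mul_left _ hc)
      induction e using Sym2.ind with
      | _ y z =>
        refine le_trans (card_le_card fun x hx => ?_) (card_le_two (a := y) (b := z))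
        rcases Sym2.eq_iff.mp (mem_filter.mp hx).2 with h | h <;> simp [h.1])
    u v huv (fun h => h3 (h ▸ m1 u fun e => huv (by rw [← h, e])))
  obtain ⟨w, w1, w2⟩ := path_of_ports G R r1 r2 u v r3
    fun p k1 k2 => (hG _ _).mpr ((adj_iff _ _).mp (r5 p k1 k2))
  refine ⟨w, w1, fun e he => ?_⟩
  induction e using Sym2.ind with
  | _ y z =>
    have k := m2 y z he
    exact w2 y z (k ▸ r4 y (k ▸ (SimpleGraph.Subgraph.Adj.ne he).symm))

end Pool.Agent.Lib.MP_88ff4d_co
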