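import Pool.Agent.Lib.MP_88ff4d_co.Cube

/-! Hall type lemmas in the cube. -/

namespace Pool.Agent.Lib.MP_88ff4d_co

open Finset

theorem hall_wrap {α β : Type*} [DecidableEq α] [DecidableEq β] [Nonempty β] (A : Finset α)
    (t : α → Finset β) (h : ∀ X ⊆ A, X.card ≤ (X.biUnion t).card) :
    ∃ f : α → β, Set.InjOn f A ∧ ∀ x ∈ A, f x ∈ t x := by
  obtain ⟨f, hf, hft⟩ := (Finset.all_card_le_biUnion_card_iff_exists_injective
    (fun x : A => t x)).mp (fun s => by
      have h1 := h (s.image Subtype.val) (fun x hx => by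
        obtain ⟨y, -, rfl⟩ := mem_image.mp hx
        exact y.2)
      rw [card_image_of_injective _ Subtype.val_injective, image_biUnion] at h1
      exact h1)
  refine ⟨fun x => if hx : x ∈ A then f ⟨x, hx⟩ else Classical.arbitrary β, ?_, ?_⟩
  · intro x hx y hy hxy
    have hx' : x ∈ A := hx
    have hy' : y ∈ A := hy
    simp only [dif_pos hx', dif_pos hy'] at hxy
    exact congrArg Subtype.val (hf hxy)
  · intro x hx
    simp only [dif_pos hx]
    exact hft ⟨x, hx⟩

variable {n : ℕ}

theorem small_hall (Y X N : Finset (V n)) (g d : ℕ) (hX : ∀ x ∈ X, g ≤ dg Y x)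
    (hN : ∀ x ∈ X, ∀ y ∈ Y, adj x y → y ∈ N) (hc : N.card < X.card) (hg : 4 * d < g) :
    2 ^ d ≤ X.card := by
  by_contra hlt
  have h1 := card_union_le X N
  have h2 := pairs_le' d (X ∪ N) (by omega)
  have h3 : g * X.card ≤ ∑ x ∈ X ∪ N, dg (X ∪ N) x := by
    refine le_trans ?_ (sum_le_sum_of_subset (subset_union_left (s₁ := X) (s₂ := N)))
    rw [mul_comm, ← smul_eq_mul, ← sum_const]
    refine sum_le_sum fun x hx => (hX x hx).trans (card_le_card fun y hy => ?_)
    obtain ⟨k1, k2⟩ := mem_filter.mp hy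
    exact mem_filter.mpr ⟨mem_union_right _ (hN x hx y k1 k2), k2⟩
  have h4 : 0 < X.card := by omega
  nlinarith

theorem par_cases (a : ZMod 2) : a = 0 ∨ a = 1 := by revert a; decide

theorem exists_pm (hn : 0 < n) (W : Finset (V n)) (g d : ℕ) (bal : ∑ x ∈ univ \ W, sg x = 0)
    (hdeg : ∀ y ∉ W, g ≤ dg (univ \ W) y) (hg : 4 * d < g) (hW : 2 * n * W.card < 2 ^ d) :
    ∃ N, Inv (univ \ W) N ∧ ∀ x ∈ univ \ W, adj x (N x) := by
  set Y := univ \ W with hY
  set Ye := Y.filter fun x => par x = 0 with hYe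
  set Yo := Y.filter fun x => ¬ par x = 0 with hYo
  have hcard : Ye.card = Yo.card := by
    simp only [sg, sum_ite, sum_const, nsmul_eq_mul] at bal
    have : (Ye.card : ℤ) = Yo.card := by linarith
    exact_mod_cast this
  have hdeg' : ∀ y ∈ Y, g ≤ dg Y y := fun y hy => hdeg y (mem_sdiff.mp hy).2
  have odd_of : ∀ x ∈ Ye, ∀ y ∈ Y, adj x y → y ∈ Yo := by
    intro x hx y hy hxy
    refine mem_filter.mpr ⟨hy, fun hh => hxy.par_ne ?_⟩
    rw [hh, (mem_filter.mp hx).2]
  obtain ⟨f, hf1, hf2⟩ := hall_wrap Ye (fun x => Y.filter (adj x)) (by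
    intro X hX
    by_contra hlt
    push Not at hlt
    set N := X.biUnion fun x => Y.filter (adj x) with hN
    have hXN : ∀ x ∈ X, ∀ y ∈ Y, adj x y → y ∈ N := fun x hx y hy hxy =>
      mem_biUnion.mpr ⟨x, hx, mem_filter.mpr ⟨hy, hxy⟩⟩
    have hNo : N ⊆ Yo := by
      intro y hy
      obtain ⟨x, hx, k⟩ := mem_biUnion.mp hy
      exact odd_of x (hX hx) y (mem_filter.mp k).1 (mem_filter.mp k).2
    have h1 := small_hall Y X N g d (fun x hx => hdeg' x (mem_filter.mp (hX hx)).1) hXN hlt hg
    have h2 := small_hall Y (Yo \ N) (Ye \ X) g d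
      (fun x hx => hdeg' x (mem_filter.mp (mem_sdiff.mp hx).1).1) (by
        intro x hx y hy hxy
        obtain ⟨k1, k2⟩ := mem_sdiff.mp hx
        obtain ⟨k3, k4⟩ := mem_filter.mp k1
        refine mem_sdiff.mpr ⟨mem_filter.mpr ⟨hy, ?_⟩, fun hh => k2 (hXN y hh x k3 hxy.symm)⟩
        rcases par_cases (par y) with c | c
        · exact c
        · rcases par_cases (par x) with c' | c'
          · exact absurd c' k4
          · exact absurd (c'.trans c.symm) hxy.par_ne) (by
        have e1 := card_sdiff_add_card_eq_card hX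
        have e2 := card_sdiff_add_card_eq_card hNo
        omega) hg
    let i0 : Fin n := ⟨0, hn⟩
    have h3 := cayley (univ.filter fun x => par x = 0) X
      (fun x hx => mem_filter.mpr ⟨mem_univ _, (mem_filter.mp (hX hx)).2⟩)
      (fun x hx y hy => mem_filter.mpr ⟨mem_univ _, by
        rw [par_add, (mem_filter.mp hx).2, (mem_filter.mp hy).2, add_zero]⟩)
      (fun i => Pi.single i 1 + Pi.single i0 1) (by
        intro g hg
        refine ⟨univ.filter fun i => g i = 1, ?_⟩
        have e := eq_sum_single g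
        have e2 : ((univ.filter fun i => g i = 1).card : ZMod 2) = 0 := by
          have := congrArg par e
          rw [(mem_filter.mp hg).2] at this
          rw [this]
          simp [par, Finset.sum_apply, Pi.single_apply]
        rw [sum_add_distrib, ← e, sum_const, ← Nat.cast_smul_eq_nsmul (ZMod 2), e2, zero_smul,
          add_zero]) W.card (2 ^ d) (by
        intro i
        set B := X.filter fun x => x + (Pi.single i 1 + Pi.single i0 1) ∉ X with hB
        have e1 : X.image (fun x => fl x i0) ∪ B.image (fun x => fl x i) ⊆ N ∪ W := by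
          intro y hy
          have : ∃ x ∈ X, adj x y := by
            rcases mem_union.mp hy with k | k
            · obtain ⟨x, hx, rfl⟩ := mem_image.mp k
              exact ⟨x, hx, adj_fl _ _⟩
            · obtain ⟨x, hx, rfl⟩ := mem_image.mp k
              exact ⟨x, (mem_filter.mp hx).1, adj_fl _ _⟩
          obtain ⟨x, hx, hxy⟩ := this
          by_cases hw : y ∈ W
          · exact mem_union_right _ hw
          · exact mem_union_left _ (hXN x hx y (mem_sdiff.mpr ⟨mem_univ _, hw⟩) hxy)
        have e2 : Disjoint (X.image (fun x => fl x i0)) (B.image (fun x => fl x i)) := by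
          rw [disjoint_left]
          intro y k1 k2
          obtain ⟨x, hx, rfl⟩ := mem_image.mp k1
          obtain ⟨z, hz, e⟩ := mem_image.mp k2
          apply (mem_filter.mp hz).2
          have : z + (Pi.single i 1 + Pi.single i0 1) = fl (fl z i) i0 := by
            simp only [fl, add_assoc]
          rw [this, e, fl_fl]
          exact hx
        have e3 := card_le_card e1
        rw [card_union_of_disjoint e2, card_image_of_injective _ (fl_left_inj i0),
          card_image_of_injective _ (fl_left_inj i)] at e3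
        have e4 := card_union_le N W
        show B.card ≤ _
        omega) h1 (by
        refine h2.trans ?_
        apply card_le_card_of_injOn (fun x => fl x i0)
        · intro y hy
          obtain ⟨k1, k2⟩ := mem_sdiff.mp hy
          obtain ⟨k3, k4⟩ := mem_filter.mp k1
          refine mem_sdiff.mpr ⟨mem_filter.mpr ⟨mem_univ _, ?_⟩,
            fun hh => k2 (hXN _ hh y k3 (adj_fl y i0).symm)⟩
          rw [par_fl, (par_cases _).resolve_left k4]
          rfl
        · exact (fl_left_inj i0).injOn)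
    omega)
  have hf3 : ∀ x ∈ Ye, f x ∈ Yo := fun x hx =>
    odd_of x hx _ (mem_filter.mp (hf2 x hx)).1 (mem_filter.mp (hf2 x hx)).2
  have himg : Ye.image f = Yo := by
    apply eq_of_subset_of_card_le
    · intro y hy
      obtain ⟨x, hx, rfl⟩ := mem_image.mp hy
      exact hf3 x hx
    · rw [card_image_of_injOn hf1, hcard]
  obtain ⟨R, h1, h2, h3⟩ := exists_inv_of_injOn Ye f hf1
    (fun x hx hh => (mem_filter.mp (hf3 x hx)).2 (mem_filter.mp hh).2)
  have e : Ye ∪ Ye.image f = Y := by rw [himg, filter_union_filter_not_eq]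
  rw [e] at h1
  refine ⟨R, h1, fun x hx => ?_⟩
  rw [← e] at hx
  rcases mem_union.mp hx with k | k
  · rw [h2 x k]
    exact (mem_filter.mp (hf2 x k)).2
  · obtain ⟨y, hy, rfl⟩ := mem_image.mp k
    rw [h3 y hy]
    exact (mem_filter.mp (hf2 y hy)).2.symm

theorem closure (Y T0 : Finset (V n)) (h0 : T0 ⊆ Y) (d : ℕ) (hd : 0 < d)
    (hT : 2 * T0.card + 1 < 2 ^ (d + 1)) :
    ∃ T, T0 ⊆ T ∧ T ⊆ Y ∧ T.card ≤ 2 * T0.card ∧ ∀ y ∈ Y, y ∉ T → dg T y ≤ 2 * d := by
  obtain ⟨T, hT1, hmax⟩ := exists_max_image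
    (Y.powerset.filter fun S => T0 ⊆ S ∧ S.card ≤ 2 * T0.card + 1)
    (fun S => ((∑ x ∈ S, dg S x : ℕ) : ℤ) - 4 * d * S.card)
    ⟨T0, mem_filter.mpr ⟨mem_powerset.mpr h0, subset_rfl, by omega⟩⟩
  obtain ⟨k1, k2, k3⟩ := mem_filter.mp hT1
  rw [mem_powerset] at k1
  have h1 := hmax T0 (mem_filter.mpr ⟨mem_powerset.mpr h0, subset_rfl, by omega⟩)
  have h2 := pairs_le' d T (by omega)
  have h3 : T.card ≤ 2 * T0.card := by
    have e1 : (0 : ℤ) ≤ ((∑ x ∈ T0, dg T0 x : ℕ) : ℤ) := by positivity
    have e2 : ((∑ x ∈ T, dg T x : ℕ) : ℤ) ≤ 2 * d * T.card := by exact_mod_cast h2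
    have e3 : (d : ℤ) * T.card ≤ d * (2 * T0.card) := by linarith
    have := le_of_mul_le_mul_left e3 (by exact_mod_cast hd)
    exact_mod_cast this
  refine ⟨T, k2, k1, h3, fun y hy hyT => ?_⟩
  have h4 := hmax (insert y T) (mem_filter.mpr ⟨mem_powerset.mpr (insert_subset hy k1),
    k2.trans (subset_insert _ _), by rw [card_insert_of_notMem hyT]; omega⟩)
  have h5 : ∑ x ∈ T, dg T x + 2 * dg T y ≤ ∑ x ∈ insert y T, dg (insert y T) x := by
    rw [sum_insert hyT]
    have e1 := dg_mono (subset_insert y T) y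
    have e2 : ∑ x ∈ T, (dg T x + if adj y x then 1 else 0) ≤ ∑ x ∈ T, dg (insert y T) x := by
      refine sum_le_sum fun x _ => ?_
      rw [dg, dg, filter_insert]
      split_ifs with c1 c2 c2
      · rw [card_insert_of_notMem (fun hh => hyT (mem_filter.mp hh).1)]
      · exact absurd c1.symm c2
      · exact card_le_card (subset_insert _ _)
      · omega
    rw [sum_add_distrib, ← card_filter] at e2
    have e3 : (T.filter fun x => adj y x).card = dg T y := rfl
    omega
  rw [card_insert_of_notMem hyT] at h4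
  have h6 : ((∑ x ∈ T, dg T x : ℕ) : ℤ) + 2 * dg T y ≤
      ((∑ x ∈ insert y T, dg (insert y T) x : ℕ) : ℤ) := by exact_mod_cast h5
  push_cast at h4 h6
  have : (dg T y : ℤ) ≤ 2 * d := by linarith
  exact_mod_cast this

theorem exists_rank {W : Type*} [DecidableEq W] (π : W → V n) (c d : ℕ)
    (hc : ∀ (A : Finset W) (x : V n), (A.filter fun q => π q = x).card ≤ c) (P : W → W)
    (S : Finset W) : Inv S P → (S.image π).card < 2 ^ (d + 1) →
    ∃ r : W → ℕ, (∀ p ∈ S, r (P p) = r p) ∧ ∀ p ∈ S,
      (S.filter fun q => r p ≤ r q ∧ adj (π p) (π q)).card +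
      (S.filter fun q => r p ≤ r q ∧ adj (π (P p)) (π q)).card ≤ 4 * c * d := by
  induction S using Finset.strongInduction with
  | H S ih =>
    intro hP hS
    rcases S.eq_empty_or_nonempty with rfl | hne
    · exact ⟨fun _ => 0, by simp, by simp⟩
    obtain ⟨p, hp, hpd⟩ : ∃ p ∈ S, (S.filter fun q => adj (π p) (π q)).card +
        (S.filter fun q => adj (π (P p)) (π q)).card ≤ 4 * c * d := by
      apply exists_le_of_sum_le hne
      have h1 := pairs_le π c d hc S hS
      have h2 : ∑ p ∈ S, (S.filter fun q => adj (π (P p)) (π q)).card =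
          ∑ p ∈ S, (S.filter fun q => adj (π p) (π q)).card :=
        sum_nbij' P P (fun x hx => (hP x hx).1) (fun x hx => (hP x hx).1)
          (fun x hx => (hP x hx).2.2) (fun x hx => (hP x hx).2.2) (fun x _ => rfl)
      rw [sum_add_distrib, h2, sum_const, smul_eq_mul]
      nlinarith
    obtain ⟨k1, k2, k3⟩ := hP p hp
    have hT : ({p, P p} : Finset W) ⊆ S := by
      intro z hz
      rcases mem_insert.mp hz with rfl | hz
      · exact hp
      · rw [mem_singleton.mp hz]; exact k1
    have hcl : Cl {p, P p} P := by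
      intro z hz
      rcases mem_insert.mp hz with rfl | hz
      · simp
      · rw [mem_singleton.mp hz, k3]; simp
    have hcl' := hP.sdiff hT hcl
    obtain ⟨r, hr1, hr2⟩ := ih (S \ {p, P p}) (sdiff_ssubset hT ⟨p, by simp⟩)
      (hP.mono sdiff_subset hcl')
      (lt_of_le_of_lt (card_le_card (image_subset_image sdiff_subset)) hS)
    refine ⟨fun q => if q ∈ ({p, P p} : Finset W) then 0 else r q + 1, fun q hq => ?_,
      fun q hq => ?_⟩
    · by_cases h : q ∈ ({p, P p} : Finset W)
      · simp only [if_pos h, if_pos (hcl q h)]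
      · have h' := mem_sdiff.mpr ⟨hq, h⟩
        simp only [if_neg h, if_neg (mem_sdiff.mp (hcl' q h')).2, hr1 q h']
    · by_cases h : q ∈ ({p, P p} : Finset W)
      · simp only [if_pos h, Nat.zero_le, true_and]
        rcases mem_insert.mp h with rfl | h
        · exact hpd
        · rw [mem_singleton.mp h, k3]
          omega
      · have h' := mem_sdiff.mpr ⟨hq, h⟩
        refine le_trans (Nat.add_le_add (card_le_card ?_) (card_le_card ?_)) (hr2 q h')
        all_goals
          intro z hz
          obtain ⟨c1, c2, c3⟩ := mem_filter.mp hz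
          simp only [if_neg h] at c2
          by_cases c4 : z ∈ ({p, P p} : Finset W)
          · simp only [if_pos c4] at c2
            omega
          · simp only [if_neg c4] at c2
            exact mem_filter.mpr ⟨mem_sdiff.mpr ⟨c1, c4⟩, by omega, c3⟩

theorem exists_tau {W : Type*} [DecidableEq W] (S ST : Finset W) (P : W → W) (hP : Inv S P)
    (Val : W → W → Prop) [∀ p q, Decidable (Val p q)] (Δ : ℕ) (hΔ : 0 < Δ)
    (hl : ∀ p ∈ ST, Δ ≤ (S.filter (Val p)).card)
    (hr : ∀ q ∈ S, (ST.filter fun p => Val p q).card + (ST.filter fun p => Val p (P q)).card ≤ Δ) :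
    ∃ τ : W → W, (∀ p ∈ ST, τ p ∈ S ∧ Val p (τ p)) ∧
      ∀ p ∈ ST, ∀ p' ∈ ST, (τ p = τ p' ∨ τ p = P (τ p')) → p = p' := by
  let bl : W → Finset W := fun q => {q, P q}
  obtain ⟨f, hf1, hf2⟩ := hall_wrap ST (fun p => (S.filter (Val p)).image bl) (by
    intro X hX
    set N := X.biUnion fun p => (S.filter (Val p)).image bl with hN
    set Q := S.filter fun q => bl q ∈ N with hQ
    have h1 : Δ * X.card ≤ ∑ q ∈ Q, (ST.filter fun p => Val p q).card := by
      calc Δ * X.card = ∑ p ∈ X, Δ := by rw [sum_const, smul_eq_mul, mul_comm]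
        _ ≤ ∑ p ∈ X, (Q.filter (Val p)).card := by
            refine sum_le_sum fun p hp => (hl p (hX hp)).trans (card_le_card fun q hq => ?_)
            exact mem_filter.mpr ⟨mem_filter.mpr ⟨(mem_filter.mp hq).1,
              mem_biUnion.mpr ⟨p, hp, mem_image_of_mem bl hq⟩⟩, (mem_filter.mp hq).2⟩
        _ = ∑ q ∈ Q, (X.filter fun p => Val p q).card := by
            simp only [card_filter]
            exact sum_comm
        _ ≤ _ := sum_le_sum fun q _ => card_le_card (filter_subset_filter _ hX)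
    have h2 : ∑ q ∈ Q, (ST.filter fun p => Val p q).card ≤ Δ * N.card := by
      rw [← sum_fiberwise_of_maps_to (g := bl) (t := N) (fun q hq => (mem_filter.mp hq).2),
        mul_comm, ← smul_eq_mul, ← sum_const]
      refine sum_le_sum fun β hβ => ?_
      obtain ⟨p, -, k⟩ := mem_biUnion.mp hβ
      obtain ⟨q0, k1, rfl⟩ := mem_image.mp k
      have k2 := (mem_filter.mp k1).1
      refine le_trans (sum_le_sum_of_subset (t := bl q0) fun q hq => ?_) ?_
      · rw [← (mem_filter.mp hq).2]
        exact mem_insert_self _ _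
      · rw [sum_pair (hP q0 k2).2.1.symm]
        exact hr q0 k2
    exact Nat.le_of_mul_le_mul_left (h1.trans h2) hΔ)
  have : ∀ p, ∃ q, p ∈ ST → (q ∈ S ∧ Val p q) ∧ bl q = f p := by
    intro p
    by_cases hp : p ∈ ST
    · obtain ⟨q, k1, k2⟩ := mem_image.mp (hf2 p hp)
      exact ⟨q, fun _ => ⟨mem_filter.mp k1, k2⟩⟩
    · exact ⟨p, fun h => absurd h hp⟩
  choose τ hτ using this
  refine ⟨τ, fun p hp => (hτ p hp).1, fun p hp p' hp' h => hf1 hp hp' ?_⟩
  rw [← (hτ p hp).2, ← (hτ p' hp').2]
  rcases h with h | h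
  · rw [h]
  · simp only [bl]
    rw [h, (hP _ (hτ p' hp').1.1).2.2, pair_comm]

theorem exists_exit {W : Type*} [DecidableEq W] (τ : W → W) (r : W → ℕ) (S : Finset W) :
    (∀ p ∈ S, τ p ∈ S → r (τ p) < r p) →
    ∃ E ⊆ S, ∀ p ∈ S, (p ∈ E ↔ p ∉ E.image τ) := by
  induction S using Finset.strongInduction with
  | H S ih =>
    intro h
    rcases S.eq_empty_or_nonempty with rfl | hne
    · exact ⟨∅, subset_rfl, by simp⟩
    obtain ⟨p0, hp0, hmin⟩ := exists_min_image S r hne
    have h0 : τ p0 ∉ S := fun hh => by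
      have := h p0 hp0 hh
      have := hmin _ hh
      omega
    obtain ⟨E, hE, hE2⟩ := ih (S.erase p0) (erase_ssubset hp0)
      (fun p hp hh => h p (mem_of_mem_erase hp) (mem_of_mem_erase hh))
    have hp0E : p0 ∉ E := fun hh => notMem_erase p0 S (hE hh)
    by_cases hc : p0 ∈ E.image τ
    · refine ⟨E, hE.trans (erase_subset _ _), fun p hp => ?_⟩
      by_cases hpp : p = p0
      · rw [hpp]; tauto
      · exact hE2 p (mem_erase.mpr ⟨hpp, hp⟩)
    · refine ⟨insert p0 E, insert_subset hp0 (hE.trans (erase_subset _ _)), fun p hp => ?_⟩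
      have e : p ≠ τ p0 := fun hh => h0 (hh ▸ hp)
      rw [image_insert, mem_insert, mem_insert]
      by_cases hpp : p = p0
      · subst hpp; tauto
      · have := hE2 p (mem_erase.mpr ⟨hpp, hp⟩)
        tauto

end Pool.Agent.Lib.MP_88ff4d_co
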