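import Pool.Agent.Lib.MP_88ff4d_co.Match

/-! Decomposition of the complement of a small set into subcubes, and connecting seed edges. -/

namespace Pool.Agent.Lib.MP_88ff4d_co

open Finset

variable {n : ℕ}

/-- the first `t` directions -/
def Dt (n t : ℕ) : Finset (Fin n) := univ.filter fun i => i.val < t

theorem mem_Dt {t : ℕ} {i : Fin n} : i ∈ Dt n t ↔ i.val < t := by simp [Dt]

theorem card_Dt {t : ℕ} (h : t ≤ n) : (Dt n t).card = t := by
  rw [Dt, Fin.card_filter_val_lt]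
  omega

/-- representative of a leaf -/
def rep (k : ℕ) (x : V n) : V n := fun i => if i.val < k then 0 else x i

theorem rep_rep (k : ℕ) (x : V n) : rep k (rep k x) = rep k x := by
  funext i
  simp only [rep]
  split_ifs <;> rfl

theorem rep_fl_of_lt {k : ℕ} (x : V n) {i : Fin n} (h : i.val < k) : rep k (fl x i) = rep k x := by
  funext j
  simp only [rep]
  split_ifs with c
  · rfl
  · exact fl_apply_ne x (fun hh => c (hh ▸ h))

theorem rep_fl_of_ge {k : ℕ} (x : V n) {i : Fin n} (h : ¬ i.val < k) :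
    rep k (fl x i) = fl (rep k x) i := by
  funext j
  by_cases hj : j = i
  · subst hj
    rw [fl_apply_self]
    simp only [rep, if_neg h, fl_apply_self]
  · rw [fl_apply_ne _ hj]
    simp only [rep, fl_apply_ne _ hj]

theorem mem_Sub_Dt {t : ℕ} {x y : V n} : y ∈ Sub (Dt n t) x ↔ ∀ i : Fin n, t ≤ i.val → y i = x i := by
  simp [mem_Sub, mem_Dt]

theorem rep_eq_iff {k : ℕ} {x y : V n} : rep k y = rep k x ↔ y ∈ Sub (Dt n k) x := by
  rw [mem_Sub_Dt]
  constructor
  · intro h i hi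
    have := congrFun h i
    simpa only [rep, if_neg (not_lt.mpr hi)] using this
  · intro h
    funext i
    simp only [rep]
    split_ifs with c
    · rfl
    · exact h i (not_lt.mp c)

theorem card_Sub (D : Finset (Fin n)) (b : V n) : (Sub D b).card = 2 ^ D.card := by
  have : Sub D b = Fintype.piFinset fun i => if i ∈ D then univ else {b i} := by
    ext x
    rw [mem_Sub, Fintype.mem_piFinset]
    refine forall_congr' fun i => ?_
    split_ifs with c <;> simp [c]
  rw [this, Fintype.card_piFinset]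
  have e : ∀ i, (if i ∈ D then (univ : Finset (ZMod 2)) else {b i}).card = if i ∈ D then 2 else 1 := by
    intro i
    split_ifs <;> simp
  simp only [e]
  rw [prod_ite_mem, univ_inter, prod_const]

theorem card_lift {k : ℕ} (hk : k ≤ n) (Tq : Finset (V n)) :
    (univ.filter fun x => rep k x ∈ Tq).card ≤ 2 ^ k * Tq.card := by
  refine card_le_mul_card_image_of_maps_to (f := rep k) (fun x hx => (mem_filter.mp hx).2) _
    fun b _ => ?_
  have e : 2 ^ k = (Sub (Dt n k) b).card := by rw [card_Sub, card_Dt hk]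
  rw [e]
  refine card_le_card fun x hx => mem_Sub_Dt.mpr fun i hi => ?_
  rw [← (mem_filter.mp hx).2]
  simp only [rep, if_neg (not_lt.mpr hi)]

theorem exists_pieces {k : ℕ} (hk1 : 1 ≤ k) (hk : k ≤ n) (Tq T : Finset (V n))
    (hT : ∀ x, x ∈ T ↔ rep k x ∈ Tq) (hne : T.Nonempty) :
    ∃ pc : V n → Finset (V n), (∀ x ∉ T, (∀ y, rep k y = rep k x → y ∈ pc x) ∧
      (∀ y ∈ pc x, y ∉ T ∧ pc y = pc x) ∧ Fk adj (pc x)) ∧
      ((univ \ T).image pc).card ≤ n * Tq.card := by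
  let tt : V n → ℕ := fun x => Nat.findGreatest (fun t => Disjoint (Sub (Dt n t) x) T) n
  have hk0 : ∀ x ∉ T, Disjoint (Sub (Dt n k) x) T := by
    intro x hx
    rw [disjoint_left]
    intro y hy hyT
    exact hx ((hT x).mpr (rep_eq_iff.mpr hy ▸ (hT y).mp hyT))
  have h1 : ∀ x ∉ T, k ≤ tt x := fun x hx => Nat.le_findGreatest hk (hk0 x hx)
  have h2 : ∀ x ∉ T, Disjoint (Sub (Dt n (tt x)) x) T := fun x hx =>
    Nat.findGreatest_spec (P := fun t => Disjoint (Sub (Dt n t) x) T) hk (hk0 x hx)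
  have h3 : ∀ x, tt x ≤ n := fun x => Nat.findGreatest_le n
  have h4 : ∀ x t, tt x < t → t ≤ n → ¬ Disjoint (Sub (Dt n t) x) T := fun x t a b =>
    Nat.findGreatest_is_greatest a b
  have mono : ∀ (x : V n) s t, s ≤ t → Sub (Dt n s) x ⊆ Sub (Dt n t) x := fun x s t h y hy =>
    mem_Sub_Dt.mpr fun i hi => mem_Sub_Dt.mp hy i (h.trans hi)
  refine ⟨fun x => Sub (Dt n (tt x)) x, fun x hx => ⟨fun y hy => ?_, fun y hy => ?_, ?_⟩, ?_⟩
  · exact mono x _ _ (h1 x hx) (rep_eq_iff.mp hy)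
  · have hyT : y ∉ T := disjoint_left.mp (h2 x hx) hy
    refine ⟨hyT, ?_⟩
    have e : tt y = tt x := by
      apply le_antisymm
      · by_contra hh
        apply h4 x (tt y) (by omega) (h3 y)
        rw [← Sub_eq_of_mem (mono x _ _ (by omega : tt x ≤ tt y) hy)]
        exact h2 y hyT
      · by_contra hh
        apply h4 y (tt x) (by omega) (h3 x)
        rw [Sub_eq_of_mem hy]
        exact h2 x hx
    show Sub (Dt n (tt y)) y = _
    rw [e, Sub_eq_of_mem hy]
  · have := h1 x hx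
    exact fink _ ⟨⟨0, by omega⟩, mem_Dt.mpr (by simp; omega)⟩ x
  · have h5 : (univ \ T).image (fun x => Sub (Dt n (tt x)) x) ⊆
        ((univ : Finset (Fin n)) ×ˢ Tq).image fun q => Sub (Dt n q.1.val) (fl q.2 q.1) := by
      intro π hπ
      obtain ⟨x, hx, rfl⟩ := mem_image.mp hπ
      have hxT := (mem_sdiff.mp hx).2
      have h6 : tt x < n := by
        refine lt_of_le_of_ne (h3 x) fun hh => ?_
        obtain ⟨z, hz⟩ := hne
        refine disjoint_left.mp (h2 x hxT) (mem_Sub_Dt.mpr fun i hi => ?_) hz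
        have := i.2
        omega
      obtain ⟨z, hz1, hz2⟩ := not_disjoint_iff.mp (h4 x (tt x + 1) (by omega) h6)
      have hb : rep k z ∈ T := (hT _).mpr (by rw [rep_rep]; exact (hT z).mp hz2)
      have hk' := h1 x hxT
      have hb1 : ∀ i : Fin n, tt x + 1 ≤ i.val → rep k z i = x i := fun i hi => by
        simp only [rep, if_neg (by omega : ¬ i.val < k)]
        exact mem_Sub_Dt.mp hz1 i hi
      have hb2 : rep k z ⟨tt x, h6⟩ ≠ x ⟨tt x, h6⟩ := by
        intro hh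
        refine disjoint_left.mp (h2 x hxT) (mem_Sub_Dt.mpr fun i hi => ?_) hb
        rcases hi.lt_or_eq with c | c
        · exact hb1 i c
        · have : i = ⟨tt x, h6⟩ := Fin.ext c.symm
          rw [this, hh]
      refine mem_image.mpr ⟨(⟨tt x, h6⟩, rep k z), mem_product.mpr ⟨mem_univ _, (hT z).mp hz2⟩, ?_⟩
      apply Sub_eq_of_mem
      refine mem_Sub_Dt.mpr fun i hi => ?_
      rcases hi.lt_or_eq with c | c
      · rw [fl_apply_ne _ (fun hh => by rw [hh] at c; simp at c)]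
        exact hb1 i c
      · have : i = ⟨tt x, h6⟩ := Fin.ext c.symm
        rw [this, fl_apply_self]
        exact (z2_eq hb2.symm).symm
    refine (card_le_card h5).trans (card_image_le.trans ?_)
    simp

theorem exists_height (O : Finset (V n)) (x0 : V n) (hx0 : x0 ∈ O)
    (hO : ∀ K ⊆ O, K.Nonempty → (∀ x ∈ K, ∀ y ∈ O, adj x y → y ∈ K) → K = O) :
    ∃ h : V n → ℕ, ∀ w ∈ O, w ≠ x0 → ∃ w' ∈ O, adj w w' ∧ h w' < h w := by
  classical
  let R : ℕ → V n → Prop := fun j => Nat.rec (fun w => w = x0)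
    (fun _ r w => ∃ w' ∈ O, adj w w' ∧ r w') j
  have hall : ∀ w ∈ O, ∃ j, R j w := by
    have := hO (O.filter fun w => ∃ j, R j w) (filter_subset _ _)
      ⟨x0, mem_filter.mpr ⟨hx0, 0, rfl⟩⟩ (by
        intro x hx y hy hxy
        obtain ⟨k1, j, k2⟩ := mem_filter.mp hx
        exact mem_filter.mpr ⟨hy, j + 1, x, k1, hxy.symm, k2⟩)
    intro w hw
    rw [← this] at hw
    exact (mem_filter.mp hw).2
  refine ⟨fun w => sInf {j | R j w}, fun w hw hne => ?_⟩
  have h1 : R (sInf {j | R j w}) w := Nat.sInf_mem (s := {j | R j w}) (hall w hw)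
  rcases hj : sInf {j | R j w} with _ | j
  · rw [hj] at h1
    exact absurd h1 hne
  · rw [hj] at h1
    obtain ⟨w', k1, k2, k3⟩ := h1
    refine ⟨w', k1, k2, ?_⟩
    simp only [hj]
    exact Nat.lt_succ_of_le (Nat.sInf_le (s := {j | R j w'}) k3)

theorem exists_label {L : ℕ} (hL : n ≤ 2 ^ L) (h2 : 2 * L ≤ n) :
    ∃ lab : Fin n → V n → V n, (∀ i x, rep (2 * L) (lab i x) = 0) ∧
      (∀ i x y, rep (2 * L) x = rep (2 * L) y → lab i x = lab i y) ∧
      (∀ i x, lab i (fl x i) = lab i x) ∧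
      (∀ i j x y, lab i x = lab j y → i = j) ∧
      (∀ i x (j j' : Fin n), ¬ j.val < 2 * L → ¬ j'.val < 2 * L → j ≠ i → j' ≠ i →
        lab i (fl x j) = lab i (fl x j') → j = j') := by
  set G1 := Sub (Dt n L) (0 : V n) with hG1
  set G2 := Sub (Dt n (2 * L)) (0 : V n) with hG2
  have c1 : G1.card = 2 ^ L := by rw [hG1, card_Sub, card_Dt (by omega)]
  have c2 : G2.card = 2 ^ (2 * L) := by rw [hG2, card_Sub, card_Dt h2]
  obtain ⟨h⟩ : Nonempty (Fin n ↪ G1) := Function.Embedding.nonempty_of_card_le (by simpa [c1])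
  obtain ⟨e⟩ : Nonempty (Fin n × G1 ↪ G2) := Function.Embedding.nonempty_of_card_le (by
    simp only [Fintype.card_prod, Fintype.card_fin, Fintype.card_coe, c1, c2]
    rw [two_mul, pow_add]
    exact Nat.mul_le_mul_right _ hL)
  let hs : Fin n → V n → V n := fun i x =>
    ∑ j ∈ univ.filter (fun j : Fin n => ¬ j.val < 2 * L ∧ j ≠ i), x j • (h j : V n)
  have hsm : ∀ i x, hs i x ∈ G1 := by
    intro i x
    refine mem_Sub.mpr fun l hl => ?_
    simp only [hs, Finset.sum_apply, Pi.smul_apply]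
    refine sum_eq_zero fun j _ => ?_
    rw [mem_Sub.mp (h j).2 l hl]
    simp
  have hsfl : ∀ i x (j : Fin n), ¬ j.val < 2 * L → j ≠ i → hs i (fl x j) = hs i x + h j := by
    intro i x j c1 c2
    have hj : j ∈ univ.filter (fun j : Fin n => ¬ j.val < 2 * L ∧ j ≠ i) :=
      mem_filter.mpr ⟨mem_univ _, c1, c2⟩
    simp only [hs]
    rw [← add_sum_erase _ _ hj, ← add_sum_erase _ _ hj, fl_apply_self, add_smul, one_smul,
      sum_congr rfl (fun l hl => by rw [fl_apply_ne x (mem_erase.mp hl).1])]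
    abel
  refine ⟨fun i x => (e (i, ⟨hs i x, hsm i x⟩) : V n), fun i x => ?_, fun i x y hxy => ?_,
    fun i x => ?_, fun i j x y hh => ?_, fun i x j j' a b c d hh => ?_⟩
  · rw [rep_eq_iff.mpr (e (i, ⟨hs i x, hsm i x⟩)).2]
    funext l
    simp [rep]
  · have : hs i x = hs i y := sum_congr rfl fun j hj => by
      rw [mem_Sub_Dt.mp (rep_eq_iff.mp hxy) j (not_lt.mp (mem_filter.mp hj).2.1)]
    simp only [this]
  · have : hs i (fl x i) = hs i x := sum_congr rfl fun j hj => by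
      rw [fl_apply_ne x (mem_filter.mp hj).2.2]
    simp only [this]
  · exact congrArg Prod.fst (e.injective (Subtype.ext hh))
  · have := congrArg (fun q => (q.2 : V n)) (e.injective (Subtype.ext hh))
    simp only [hsfl i x j a c, hsfl i x j' b d] at this
    exact h.injective (Subtype.ext (add_left_cancel this))

theorem rep_add (k : ℕ) (x y : V n) : rep k (x + y) = rep k x + rep k y := by
  funext i
  simp only [rep, Pi.add_apply]
  split_ifs <;> simp

theorem exists_seeds {L : ℕ} (hL : n ≤ 2 ^ L) (h2 : 2 * L ≤ n) (T : Finset (V n))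
    (pc : V n → Finset (V n))
    (hpc : ∀ x ∉ T, (∀ y, rep (2 * L) y = rep (2 * L) x → y ∈ pc x) ∧
      (∀ y ∈ pc x, y ∉ T ∧ pc y = pc x))
    (x0 : V n) (hx0 : x0 ∉ T)
    (hO : ∀ K ⊆ univ \ T, K.Nonempty → (∀ x ∈ K, ∀ y ∉ T, adj x y → y ∈ K) → K = univ \ T) :
    ∃ (Sd : Finset (V n)) (σ : V n → V n) (ρ : Finset (V n) → ℕ), Sd ⊆ univ \ T ∧ Inv Sd σ ∧
      (∀ x ∈ Sd, adj x (σ x)) ∧ Sd.card ≤ 2 * ((univ \ T).image pc).card ∧
      (∀ y, dg Sd y ≤ 2 * L + 2) ∧
      ∀ π ∈ (univ \ T).image pc, π ≠ pc x0 → ∃ x ∈ π, x ∈ Sd ∧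
        ∃ π' ∈ (univ \ T).image pc, ρ π' < ρ π ∧ σ x ∈ π' := by
  classical
  obtain ⟨lab, l1, l2, l3, l4, l5⟩ := exists_label hL h2
  obtain ⟨h, hh⟩ := exists_height (univ \ T) x0 (mem_sdiff.mpr ⟨mem_univ _, hx0⟩)
    (fun K a b c => hO K a b fun x hx y hy => c x hx y (mem_sdiff.mpr ⟨mem_univ _, hy⟩))
  set F := (univ \ T).image pc with hF
  let ρ : Finset (V n) → ℕ := fun π => sInf (h '' π)
  have key : ∀ π ∈ F.erase (pc x0), ∃ q : V n × Fin n, q.1 ∉ T ∧ pc q.1 = π ∧ ¬ q.2.val < 2 * L ∧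
      fl q.1 q.2 ∉ T ∧ ρ (pc (fl q.1 q.2)) < ρ π := by
    intro π hπ
    obtain ⟨k1, k2⟩ := mem_erase.mp hπ
    obtain ⟨x, hx, rfl⟩ := mem_image.mp k2
    have hxT := (mem_sdiff.mp hx).2
    obtain ⟨w, hw, hwe⟩ := Nat.sInf_mem (s := h '' pc x) ⟨h x, x, (hpc x hxT).1 x rfl, rfl⟩
    obtain ⟨k3, k4⟩ := (hpc x hxT).2 w hw
    obtain ⟨w', k5, ⟨i, rfl⟩, k6⟩ := hh w (mem_sdiff.mpr ⟨mem_univ _, k3⟩)
      (fun e => k1 (by rw [← k4, e]))
    have k7 := (mem_sdiff.mp k5).2
    have k8 : ρ (pc (fl w i)) ≤ h (fl w i) := Nat.sInf_le ⟨_, (hpc _ k7).1 _ rfl, rfl⟩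
    have k9 : ρ (pc x) = h w := hwe.symm
    refine ⟨(w, i), k3, k4, fun c => ?_, k7, by simp only; omega⟩
    have : fl w i ∈ pc x := k4 ▸ (hpc w k3).1 _ (rep_fl_of_lt w c)
    have : ρ (pc x) ≤ h (fl w i) := Nat.sInf_le ⟨_, this, rfl⟩
    omega
  rcases isEmpty_or_nonempty (Fin n) with hn | hn
  · refine ⟨∅, id, ρ, empty_subset _, fun x hx => by simp at hx, by simp, by simp,
      fun y => by simp [dg], fun π hπ hne => ?_⟩
    obtain ⟨q, -⟩ := key π (mem_erase.mpr ⟨hne, hπ⟩)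
    exact hn.elim q.2
  choose! q q1 q2 q3 q4 q5 using key
  let dp : V n → V n := fun x => x + rep (2 * L) x
  let s : Finset (V n) → V n := fun π => rep (2 * L) (q π).1 + lab (q π).2 (q π).1
  let ι : V n → Fin n := fun c =>
    if hc : ∃ i y, lab i y = c then hc.choose else Classical.arbitrary _
  have hι : ∀ i y, ι (lab i y) = i := by
    intro i y
    have hc : ∃ j z, lab j z = lab i y := ⟨i, y, rfl⟩
    simp only [ι, dif_pos hc]
    obtain ⟨z, hz⟩ := hc.choose_spec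
    exact l4 _ _ _ _ hz
  have hdp : ∀ x (j : Fin n), ¬ j.val < 2 * L → dp (fl x j) = dp x := by
    intro x j hj
    simp only [dp, rep_fl_of_ge x hj]
    simp only [fl]
    have := add_self' (Pi.single j 1 : V n)
    rw [add_add_add_comm, this, add_zero]
  have hrs : ∀ π, rep (2 * L) (s π) = rep (2 * L) (q π).1 := fun π => by
    simp only [s, rep_add, rep_rep, l1, add_zero]
  have hds : ∀ π, dp (s π) = lab (q π).2 (s π) := fun π => by
    rw [l2 _ _ _ (hrs π)]
    simp only [dp, hrs]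
    simp only [s]
    rw [add_right_comm, add_self', zero_add]
  set Sd := (F.erase (pc x0)).image s ∪ (F.erase (pc x0)).image (fun π => fl (s π) (q π).2)
    with hSd
  have hmem : ∀ x ∈ Sd, ∃ i : Fin n, ¬ i.val < 2 * L ∧ dp x = lab i x ∧ fl x i ∈ Sd ∧ x ∉ T := by
    intro x hx
    rcases mem_union.mp hx with k | k
    · obtain ⟨π, hπ, rfl⟩ := mem_image.mp k
      exact ⟨(q π).2, q3 π hπ, hds π, mem_union_right _ (mem_image_of_mem _ hπ),
        ((hpc _ (q1 π hπ)).2 _ ((hpc _ (q1 π hπ)).1 _ (hrs π))).1⟩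
    · obtain ⟨π, hπ, rfl⟩ := mem_image.mp k
      refine ⟨(q π).2, q3 π hπ, by rw [hdp _ _ (q3 π hπ), l3, hds], ?_,
        ((hpc _ (q4 π hπ)).2 _ ((hpc _ (q4 π hπ)).1 _ ?_)).1⟩
      · rw [fl_fl]
        exact mem_union_left _ (mem_image_of_mem _ hπ)
      · rw [rep_fl_of_ge _ (q3 π hπ), rep_fl_of_ge _ (q3 π hπ), hrs]
  refine ⟨Sd, fun x => fl x (ι (dp x)), ρ, fun x hx => ?_, fun x hx => ?_, fun x _ => adj_fl _ _,
    ?_, fun y => ?_, fun π hπ hne => ?_⟩
  · obtain ⟨i, -, -, -, k⟩ := hmem x hx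
    exact mem_sdiff.mpr ⟨mem_univ _, k⟩
  · obtain ⟨i, k1, k2, k3, -⟩ := hmem x hx
    have e : ι (dp x) = i := by rw [k2, hι]
    simp only [e, hdp x i k1]
    exact ⟨k3, fl_ne _ _, fl_fl _ _⟩
  · have := card_union_le ((F.erase (pc x0)).image s)
      ((F.erase (pc x0)).image (fun π => fl (s π) (q π).2))
    have e1 := card_image_le (s := F.erase (pc x0)) (f := s)
    have e2 := card_image_le (s := F.erase (pc x0)) (f := fun π => fl (s π) (q π).2)
    have e3 := card_erase_le (s := F) (a := pc x0)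
    rw [← hSd] at this
    omega
  · rw [dg_eq]
    set J := (univ.filter fun j : Fin n => fl y j ∈ Sd ∧ ¬ j.val < 2 * L ∧ j ≠ ι (dp y)) with hJ
    have e1 : (univ.filter fun j => fl y j ∈ Sd) ⊆ Dt n (2 * L) ∪ insert (ι (dp y)) J := by
      intro j hj
      rw [mem_union, mem_Dt, mem_insert, hJ, mem_filter]
      have := (mem_filter.mp hj).2
      simp only [mem_univ, true_and]
      tauto
    have e2 : J.card ≤ 1 := by
      have e3 : ∀ j ∈ J, lab (ι (dp y)) (fl y j) = dp y := by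
        intro j hj
        obtain ⟨-, a, b, -⟩ := mem_filter.mp hj
        obtain ⟨i, -, k2, -⟩ := hmem _ a
        rw [hdp y j b] at k2
        rw [k2, hι]
      rw [card_le_one]
      intro j hj j' hj'
      obtain ⟨-, -, b, c⟩ := mem_filter.mp hj
      obtain ⟨-, -, b', c'⟩ := mem_filter.mp hj'
      exact l5 _ y j j' b b' c c' ((e3 j hj).trans (e3 j' hj').symm)
    have e4 := (card_le_card e1).trans (card_union_le _ _)
    have e5 := card_insert_le (ι (dp y)) J
    rw [card_Dt h2] at e4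
    omega
  · have hπ' : π ∈ F.erase (pc x0) := mem_erase.mpr ⟨hne, hπ⟩
    refine ⟨s π, ?_, mem_union_left _ (mem_image_of_mem _ hπ'), pc (fl (q π).1 (q π).2),
      mem_image_of_mem _ (mem_sdiff.mpr ⟨mem_univ _, q4 π hπ'⟩), q5 π hπ', ?_⟩
    · rw [← q2 π hπ']
      have := (hpc _ (q1 π hπ')).1 _ (hrs π)
      rwa [q2 π hπ'] at this ⊢
    · simp only [hds, hι]
      apply (hpc _ (q4 π hπ')).1
      rw [rep_fl_of_ge _ (q3 π hπ'), rep_fl_of_ge _ (q3 π hπ'), hrs]

end Pool.Agent.Lib.MP_88ff4d_co
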