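import Pool.Agent.Lib.MP_88ff4d_co.Pieces

/-! Ports: every vertex has two half-edges. -/

namespace Pool.Agent.Lib.MP_88ff4d_co

open Finset

variable {n : ℕ}

/-- swap the two ports of a vertex -/
def sw (p : V n × Bool) : V n × Bool := (p.1, !p.2)

theorem inv_sw : Inv (univ : Finset (V n × Bool)) sw := by
  rintro ⟨x, b⟩ _
  cases b <;> simp [sw]

theorem fiber_le (A : Finset (V n × Bool)) (x : V n) : (A.filter fun q => q.1 = x).card ≤ 2 := by
  have : (A.filter fun q => q.1 = x) ⊆ {(x, false), (x, true)} := by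
    rintro ⟨y, b⟩ h
    have := (mem_filter.mp h).2
    simp only at this
    cases b <;> simp [this]
  exact (card_le_card this).trans card_le_two

/-- colour used to keep the entered vertices sparse -/
def col (x : V n) : ZMod 2 := ∑ i ∈ Dt n (n / 2), x i

theorem col_fl (x : V n) (i : Fin n) :
    col (fl x i) = col x + if i ∈ Dt n (n / 2) then 1 else 0 := by
  simp [col, fl, sum_add_distrib, Pi.single_apply]

theorem dg_col (x : V n) : n / 2 ≤ dg (univ.filter fun y => col y = 0) x ∧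
    dg (univ.filter fun y => col y = 0) x ≤ n - n / 2 := by
  rw [dg_eq]
  have h1 := card_Dt (n := n) (t := n / 2) (Nat.div_le_self _ _)
  rcases par_cases (col x) with h | h
  · have : (univ.filter fun i => fl x i ∈ univ.filter fun y => col y = 0) = (Dt n (n / 2))ᶜ := by
      ext i
      simp [col_fl, h]
    rw [this, card_compl, h1, Fintype.card_fin]
    omega
  · have : (univ.filter fun i => fl x i ∈ univ.filter fun y => col y = 0) = Dt n (n / 2) := by
      ext i
      simp only [mem_filter, mem_univ, true_and, col_fl, h]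
      split_ifs with c
      · simp only [c, iff_true]; rfl
      · simp [c]
    rw [this, h1]
    omega

theorem transport {O : Finset (V n)} {P : V n × Bool → V n × Bool}
    (hP : Inv (O.image fun x => (x, false)) P) :
    Inv O (fun x => (P (x, false)).1) ∧ (Good adj O (fun x => (P (x, false)).1) →
      ∃ R, Inv (O.image fun x => (x, false)) R ∧ (∀ p ∈ O.image fun x => (x, false), adj p.1 (R p).1)
        ∧ Conn (O.image fun x => (x, false)) P R) := by
  have hm : ∀ p : V n × Bool, p ∈ O.image (fun x => (x, false)) ↔ p.1 ∈ O ∧ p.2 = false := by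
    rintro ⟨x, b⟩
    simp [eq_comm]
  have he : ∀ x ∈ O, P (x, false) = ((P (x, false)).1, false) := by
    intro x hx
    have := ((hm _).mp (hP (x, false) ((hm _).mpr ⟨hx, rfl⟩)).1).2
    exact Prod.ext rfl this
  refine ⟨fun x hx => ?_, ?_⟩
  · obtain ⟨h1, h2, h3⟩ := hP (x, false) ((hm _).mpr ⟨hx, rfl⟩)
    refine ⟨((hm _).mp h1).1, fun hh => h2 ?_, ?_⟩
    · rw [he x hx]
      exact Prod.ext hh rfl
    · simp only
      rw [← he x hx, h3]
  · rintro ⟨R, h1, h2, h3⟩
    refine ⟨fun p => (R p.1, false), fun p hp => ?_, fun p hp => h2 _ ((hm p).mp hp).1, ?_⟩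
    · obtain ⟨k1, k2⟩ := (hm p).mp hp
      obtain ⟨c1, c2, c3⟩ := h1 p.1 k1
      exact ⟨(hm _).mpr ⟨c1, rfl⟩, fun hh => c2 (congrArg Prod.fst hh), Prod.ext c3 k2.symm⟩
    · intro A hA hne c1 c2
      have e : ∀ p ∈ A, p = (p.1, false) := fun p hp => Prod.ext rfl ((hm p).mp (hA hp)).2
      have := h3 (A.image Prod.fst) (fun x hx => by
        obtain ⟨p, hp, rfl⟩ := mem_image.mp hx
        exact ((hm p).mp (hA hp)).1) (hne.image _) (fun x hx => by
        obtain ⟨p, hp, rfl⟩ := mem_image.mp hx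
        exact mem_image.mpr ⟨P p, c1 p hp, congrArg (fun q => (P q).1) (e p hp)⟩) (fun x hx => by
        obtain ⟨p, hp, rfl⟩ := mem_image.mp hx
        exact mem_image.mpr ⟨_, c2 p hp, rfl⟩)
      refine subset_antisymm hA fun p hp => ?_
      obtain ⟨k1, k2⟩ := (hm p).mp hp
      rw [← this] at k1
      obtain ⟨q, hq, k3⟩ := mem_image.mp k1
      have : p = q := by
        rw [e q hq]
        exact Prod.ext k3.symm k2
      rwa [this]

/-- the trouble region, its pieces and seeds -/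
theorem exists_region {a L : ℕ} (hL : n ≤ 2 ^ L) (hL1 : 1 ≤ L)
    (hn : 2 * (a + 3) + (a + 3 + 3 * L) + 2 ≤ n) (C : Finset (V n)) (hC : C.card ≤ 2 ^ (a + 2))
    (hne : C.Nonempty) :
    ∃ (T Sd : Finset (V n)) (σ : V n → V n), C ⊆ T ∧ T.card ≤ 2 ^ (a + 3 + 2 * L) ∧
      ∑ x ∈ T, sg x = 0 ∧ (∀ y ∉ T, dg T y ≤ 2 * (a + 3)) ∧ Sd ⊆ univ \ T ∧ Inv Sd σ ∧
      (∀ x ∈ Sd, adj x (σ x)) ∧ Sd.card ≤ 2 ^ (a + 3 + 2 * L) ∧ (∀ y, dg Sd y ≤ 2 * L + 2) ∧
      ∀ P, Inv (univ \ T) P → (∀ x ∈ Sd, P x = σ x) → Good adj (univ \ T) P := by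
  have h2L : 2 * L ≤ n := by omega
  have hp1 : 1 ≤ 2 ^ (a + 2) := Nat.one_le_two_pow
  obtain ⟨Tq, q1, q2, q3, q4⟩ := closure (univ.filter fun x => rep (2 * L) x = x)
    (C.image (rep (2 * L))) (fun x hx => by
      obtain ⟨y, -, rfl⟩ := mem_image.mp hx
      exact mem_filter.mpr ⟨mem_univ _, rep_rep _ _⟩) (a + 3) (by omega) (by
      have := card_image_le (s := C) (f := rep (2 * L))
      rw [show a + 3 + 1 = a + 2 + 2 by ring, pow_add]
      omega)
  have q5 : Tq.card ≤ 2 ^ (a + 3) := by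
    have := card_image_le (s := C) (f := rep (2 * L))
    rw [pow_succ]
    omega
  set T := univ.filter fun x => rep (2 * L) x ∈ Tq with hTdef
  have hT : ∀ x, x ∈ T ↔ rep (2 * L) x ∈ Tq := fun x => by simp [hTdef]
  have hCT : C ⊆ T := fun x hx => (hT x).mpr (q1 (mem_image_of_mem _ hx))
  have hTc : T.card ≤ 2 ^ (a + 3 + 2 * L) := by
    refine (card_lift h2L Tq).trans ?_
    rw [pow_add, mul_comm]
    exact Nat.mul_le_mul_right _ q5
  have hθ : ∀ y ∉ T, dg T y ≤ 2 * (a + 3) := by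
    intro y hy
    refine le_trans ?_ (q4 (rep (2 * L) y) (mem_filter.mpr ⟨mem_univ _, rep_rep _ _⟩)
      (fun hh => hy ((hT y).mpr hh)))
    rw [dg_eq, dg_eq]
    refine card_le_card fun i hi => mem_filter.mpr ⟨mem_univ _, ?_⟩
    have := (hT _).mp (mem_filter.mp hi).2
    by_cases c : i.val < 2 * L
    · rw [rep_fl_of_lt y c] at this
      exact absurd ((hT y).mpr this) hy
    · rwa [rep_fl_of_ge y c] at this
  have hb : 2 * n * T.card < 2 ^ (n - 2 * (a + 3)) := by
    calc 2 * n * T.card ≤ 2 * 2 ^ L * 2 ^ (a + 3 + 2 * L) := by gcongr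
      _ = 2 ^ (a + 3 + 3 * L + 1) := by ring
      _ < _ := Nat.pow_lt_pow_right (by norm_num) (by omega)
  obtain ⟨x0, hx0⟩ : ∃ x0, x0 ∉ T := by
    by_contra hh
    push Not at hh
    have e1 : T.card = 2 ^ n := by
      rw [eq_univ_iff_forall.mpr hh]
      simp
    have e2 : 2 ^ (a + 3 + 2 * L) < 2 ^ n := Nat.pow_lt_pow_right (by norm_num) (by omega)
    omega
  obtain ⟨pc, p1, p2⟩ := exists_pieces (by omega) h2L Tq T hT (hne.mono hCT)
  obtain ⟨Sd, σ, ρ, s1, s2, s3, s4, s5, s6⟩ := exists_seeds hL h2L T pc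
    (fun x hx => ⟨(p1 x hx).1, (p1 x hx).2.1⟩) x0 hx0
    (fun K k1 k2 k3 => connected_compl T _ hθ hb K k1 k2 k3)
  refine ⟨T, Sd, σ, hCT, hTc, ?_, hθ, s1, s2, s3, ?_, s5, fun P hP hPσ => ?_⟩
  · refine (inv_fl (i := ⟨0, by omega⟩) fun x hx => ?_).sum_eq_zero sg fun x _ => (adj_fl _ _).sg
    rw [hT, rep_fl_of_lt x (by simp; omega)]
    exact (hT x).mp hx
  · calc Sd.card ≤ 2 * (2 ^ L * 2 ^ (a + 3)) := by
          refine s4.trans (Nat.mul_le_mul_left _ (p2.trans ?_))
          gcongr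
      _ = 2 ^ (a + 3 + (L + 1)) := by ring
      _ ≤ _ := Nat.pow_le_pow_right (by norm_num) (by omega)
  · have e : ((univ \ T).image pc).biUnion id = univ \ T := by
      ext x
      simp only [mem_biUnion, mem_image, mem_sdiff, mem_univ, true_and, id]
      constructor
      · rintro ⟨π, ⟨y, hy, rfl⟩, hx⟩
        exact ((p1 y hy).2.1 x hx).1
      · intro hx
        exact ⟨pc x, ⟨x, hx, rfl⟩, (p1 x hx).1 x rfl⟩
    rw [← e] at hP ⊢
    refine glue ρ (pc x0) _ (mem_image_of_mem _ (mem_sdiff.mpr ⟨mem_univ _, hx0⟩)) ?_ ?_ P hP ?_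
    · intro π hπ
      obtain ⟨y, hy, rfl⟩ := mem_image.mp hπ
      exact (p1 y (mem_sdiff.mp hy).2).2.2
    · intro π hπ π' hπ' hne'
      obtain ⟨y, hy, rfl⟩ := mem_image.mp hπ
      obtain ⟨z, hz, rfl⟩ := mem_image.mp hπ'
      rw [disjoint_left]
      intro x k1 k2
      exact hne' (((p1 y (mem_sdiff.mp hy).2).2.1 x k1).2.symm.trans
        ((p1 z (mem_sdiff.mp hz).2).2.1 x k2).2)
    · intro π hπ hne'
      obtain ⟨x, k1, k2, π', k3, k4, k5⟩ := s6 π hπ hne'
      exact ⟨x, k1, π', k3, k4, hPσ x k2 ▸ k5⟩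

/-- routing the ports of the trouble region to the outside -/
theorem exists_route {d θ s : ℕ} (hd : 0 < d) (hθd : θ ≤ 2 * d) (hn : 16 * d + s + 2 ≤ n / 2)
    (T Sd : Finset (V n)) (u v : V n) (S0 : Finset (V n × Bool)) (P0 : V n × Bool → V n × Bool)
    (hP : Inv S0 P0) (hT : T.card ≤ 2 ^ d) (hθ : ∀ y ∉ T, dg T y ≤ θ) (hS : ∀ y, dg Sd y ≤ s)
    (h1 : ∀ p ∈ S0, p.1 ∈ T → (P0 p).1 ∈ T)
    (h2 : ∀ p : V n × Bool, p.1 ∉ T → p ∈ S0 ∧ P0 p = sw p)
    (h3 : ∀ y, y ≠ u → y ≠ v → (y, false) ∈ S0) :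
    ∃ (D : Finset (V n × Bool)) (R : V n × Bool → V n × Bool), Inv D R ∧
      (∀ p ∈ D, adj p.1 (R p).1) ∧ D ⊆ S0 ∧ (∀ p ∈ S0, p.1 ∈ T → p ∈ D) ∧
      (∀ p ∈ D, p.1 ∉ T → p.2 = true ∧ p.1 ∉ Sd ∧ col p.1 = 0) ∧
      (D.filter fun p => p.1 ∉ T).card ≤ 2 * T.card ∧
      ∀ A ⊆ D, (∀ p ∈ A, p.1 ∈ T) → Cl A P0 → Cl A R → A = ∅ := by
  set ST := S0.filter fun p => p.1 ∈ T with hST
  have hPT : Inv ST P0 := hP.mono (filter_subset _ _) fun p hp =>
    mem_filter.mpr ⟨(hP p (mem_filter.mp hp).1).1, h1 p (mem_filter.mp hp).1 (mem_filter.mp hp).2⟩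
  have himg : ST.image Prod.fst ⊆ T := fun x hx => by
    obtain ⟨p, hp, rfl⟩ := mem_image.mp hx
    exact (mem_filter.mp hp).2
  obtain ⟨r, r1, r2⟩ := exists_rank Prod.fst 2 d fiber_le P0 ST hPT (by
    have := card_le_card himg
    have : 1 ≤ 2 ^ d := Nat.one_le_two_pow
    rw [pow_succ]
    omega)
  have hout : ∀ z ∉ T, (ST.filter fun p => adj p.1 z).card ≤ 2 * θ := by
    intro z hz
    refine (card_le_mul_card_image_of_maps_to (f := Prod.fst) (t := T.filter (adj z))
      (fun p hp => mem_filter.mpr ⟨(mem_filter.mp (mem_filter.mp hp).1).2,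
        (mem_filter.mp hp).2.symm⟩) 2 (fun y _ => fiber_le _ y)).trans ?_
    exact Nat.mul_le_mul_left _ (hθ z hz)
  obtain ⟨τ, t1, t2⟩ := exists_tau S0 ST P0 hP
    (fun p q => adj p.1 q.1 ∧ ((q.1 ∈ T ∧ r q < r p) ∨
      (q.1 ∉ T ∧ q.2 = true ∧ q.1 ∉ Sd ∧ col q.1 = 0))) (8 * d) (by omega) (by
      intro p hp
      have e1 := (dg_col p.1).1
      have e2 := r2 p hp
      have e3 := hS p.1
      have e4 : (univ.filter fun y => col y = 0).filter (adj p.1) ⊆
          ((S0.filter fun q => adj p.1 q.1 ∧ ((q.1 ∈ T ∧ r q < r p) ∨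
            (q.1 ∉ T ∧ q.2 = true ∧ q.1 ∉ Sd ∧ col q.1 = 0))).image Prod.fst ∪
          (ST.filter fun q => r p ≤ r q ∧ adj p.1 q.1).image Prod.fst) ∪
          (Sd.filter (adj p.1) ∪ {u, v}) := by
        intro y hy
        obtain ⟨k1, k2⟩ := mem_filter.mp hy
        have k3 := (mem_filter.mp k1).2
        by_cases c1 : y ∈ Sd
        · exact mem_union_right _ (mem_union_left _ (mem_filter.mpr ⟨c1, k2⟩))
        by_cases c2 : y ∈ ({u, v} : Finset (V n))
        · exact mem_union_right _ (mem_union_right _ c2)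
        rw [mem_insert, mem_singleton, not_or] at c2
        apply mem_union_left
        by_cases c3 : y ∈ T
        · by_cases c4 : r (y, false) < r p
          · exact mem_union_left _ (mem_image.mpr ⟨(y, false),
              mem_filter.mpr ⟨h3 y c2.1 c2.2, k2, Or.inl ⟨c3, c4⟩⟩, rfl⟩)
          · exact mem_union_right _ (mem_image.mpr ⟨(y, false),
              mem_filter.mpr ⟨mem_filter.mpr ⟨h3 y c2.1 c2.2, c3⟩, not_lt.mp c4, k2⟩, rfl⟩)
        · exact mem_union_left _ (mem_image.mpr ⟨(y, true),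
            mem_filter.mpr ⟨(h2 (y, true) c3).1, k2, Or.inr ⟨c3, rfl, c1, k3⟩⟩, rfl⟩)
      have e5 := (card_le_card e4).trans ((card_union_le _ _).trans (Nat.add_le_add
        ((card_union_le _ _).trans (Nat.add_le_add card_image_le card_image_le))
        ((card_union_le _ _).trans (Nat.add_le_add_left card_le_two _))))
      unfold dg at e1 e3
      omega) (by
      intro q hq
      by_cases c : q.1 ∈ T
      · have hq' : q ∈ ST := mem_filter.mpr ⟨hq, c⟩
        refine le_trans (Nat.add_le_add (card_le_card ?_) (card_le_card ?_))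
          ((r2 q hq').trans (by omega))
        · intro p hp
          obtain ⟨k1, k2, k3⟩ := mem_filter.mp hp
          refine mem_filter.mpr ⟨k1, ?_, k2.symm⟩
          rcases k3 with k3 | k3
          · omega
          · exact absurd c k3.1
        · intro p hp
          obtain ⟨k1, k2, k3⟩ := mem_filter.mp hp
          refine mem_filter.mpr ⟨k1, ?_, k2.symm⟩
          rcases k3 with k3 | k3
          · have := r1 q hq'
            omega
          · exact absurd (h1 q hq c) k3.1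
      · have e := hout q.1 c
        rw [(h2 q c).2]
        have e1 : ∀ b : Bool, (ST.filter fun p => adj p.1 q.1 ∧ ((q.1 ∈ T ∧ r (q.1, b) < r p) ∨
            (q.1 ∉ T ∧ b = true ∧ q.1 ∉ Sd ∧ col q.1 = 0))).card ≤ 2 * θ := fun b =>
          le_trans (card_le_card fun p hp =>
            mem_filter.mpr ⟨(mem_filter.mp hp).1, (mem_filter.mp hp).2.1⟩) e
        exact (Nat.add_le_add (e1 q.2) (e1 (!q.2))).trans (by omega))
  have t3 : ∀ p ∈ ST, (τ p).1 ∈ T → r (τ p) < r p := by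
    intro p hp c
    rcases (t1 p hp).2.2 with k | k
    · exact k.2
    · exact absurd c k.1
  obtain ⟨E, hE, hE2⟩ := exists_exit τ r ST fun p hp c => t3 p hp (mem_filter.mp c).2
  obtain ⟨R, R1, R2, R3⟩ := exists_inv_of_injOn E τ
    (fun p hp p' hp' h => t2 p (hE hp) p' (hE hp') (Or.inl h))
    (fun p hp hh => (hE2 _ (hE hh)).mp hh (mem_image_of_mem τ hp))
  refine ⟨E ∪ E.image τ, R, R1, fun p hp => ?_, fun p hp => ?_, fun p hp c => ?_,
    fun p hp c => ?_, ?_, fun A hA hAT c1 c2 => ?_⟩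
  · rcases mem_union.mp hp with k | k
    · rw [R2 p k]
      exact (t1 p (hE k)).2.1
    · obtain ⟨e, he, rfl⟩ := mem_image.mp k
      rw [R3 e he]
      exact (t1 e (hE he)).2.1.symm
  · rcases mem_union.mp hp with k | k
    · exact (mem_filter.mp (hE k)).1
    · obtain ⟨e, he, rfl⟩ := mem_image.mp k
      exact (t1 e (hE he)).1
  · have := hE2 p (mem_filter.mpr ⟨hp, c⟩)
    rw [mem_union]
    tauto
  · rcases mem_union.mp hp with k | k
    · exact absurd (mem_filter.mp (hE k)).2 c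
    · obtain ⟨e, he, rfl⟩ := mem_image.mp k
      rcases (t1 e (hE he)).2.2 with k | k
      · exact absurd k.1 c
      · exact k.2
  · have e1 : ((E ∪ E.image τ).filter fun p => p.1 ∉ T) ⊆ E.image τ := by
      intro p hp
      obtain ⟨k1, k2⟩ := mem_filter.mp hp
      exact (mem_union.mp k1).resolve_left fun k => k2 (mem_filter.mp (hE k)).2
    refine (card_le_card e1).trans (card_image_le.trans ((card_le_card hE).trans ?_))
    exact card_le_mul_card_image_of_maps_to (f := Prod.fst) (fun p hp => (mem_filter.mp hp).2) 2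
      (fun y _ => fiber_le _ y)
  · by_contra hne
    obtain ⟨p, hp, hmin⟩ := exists_min_image A r (nonempty_iff_ne_empty.mpr hne)
    have hAS : ∀ q ∈ A, q ∈ ST := by
      intro q hq
      rcases mem_union.mp (hA hq) with k | k
      · exact hE k
      · obtain ⟨e, he, rfl⟩ := mem_image.mp k
        exact mem_filter.mpr ⟨(t1 e (hE he)).1, hAT _ hq⟩
    have key : ∀ q ∈ A, r q = r p → q ∉ E := by
      intro q hq e hqE
      have k1 := c2 q hq
      rw [R2 q hqE] at k1
      have := t3 q (hE hqE) (hAT _ k1)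
      have := hmin _ k1
      omega
    have k1 := key p hp rfl
    have k2 := key (P0 p) (c1 p hp) (r1 p (hAS p hp))
    obtain ⟨e, he, e1⟩ := mem_image.mp ((mem_union.mp (hA hp)).resolve_left k1)
    obtain ⟨e', he', e2⟩ := mem_image.mp ((mem_union.mp (hA (c1 p hp))).resolve_left k2)
    have := t2 e' (hE he') e (hE he) (Or.inr (by rw [e1, e2]))
    rw [this, e1] at e2
    exact (hPT p (hAS p hp)).2.1 e2.symm

end Pool.Agent.Lib.MP_88ff4d_co
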